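import Pool.Agent.H17.NO.Det
import Pool.Graph.R_seed8.W669.HD.Sq

/-!
# Curvature tensors with nonpositive curvature operator
-/

set_option autoImplicit false

namespace Pool.Agent.H17.NO

open Finset Pool.Agent.W666.GB Pool.Agent.W669.HD Module

section

variable {V : Type} [NormedAddCommGroup V] [InnerProductSpace ℝ V] {m : ℕ}

/-- The curvature operator of `R` is nonpositive: the quadratic form of `R` is nonpositive on all
bivectors `∑ a, x a ∧ y a`. -/
def OpNonpos (R : V → V → V → V → ℝ) : Prop :=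
  ∀ (n : ℕ) (x y : Fin n → V), ∑ a, ∑ b, R (x a) (y a) (x b) (y b) ≤ 0

/-- the vector with the coordinates `v` -/
noncomputable def vv (e : OrthonormalBasis (Ix m) ℝ V) (v : EE m) : V := e.repr.symm v

theorem vv_eq (e : OrthonormalBasis (Ix m) ℝ V) (v : EE m) :
    vv e v = Pool.Agent.TH598.GV.vc e (fun i => v i) := by
  unfold vv Pool.Agent.TH598.GV.vc
  exact (e.sum_repr_symm v).symm

/-- the components of a tensor with nonpositive operator are minus a sum of squares of forms -/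
theorem squares (e : OrthonormalBasis (Ix m) ℝ V) {R : V → V → V → V → ℝ} (hR : AlgCurv R)
    (hO : OpNonpos R) :
    ∃ (n : ℕ) (ν : Fin n → Ix m → Ix m → ℝ), (∀ a i j, ν a j i = - ν a i j) ∧
      ∀ i j k l, -R (e i) (e j) (e k) (e l) = ∑ a, ν a i j * ν a k l := by
  have hB : BiForm (negT R) :=
    { add := fun x x' y z w => by simp only [negT, hR.add]; ring
      smul := fun t x y z w => by simp only [negT, hR.smul]; ring
      anti := fun x y z w => by simp only [negT, hR.anti x y z w]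
      pair := fun x y z w => by simp only [negT, hR.pair x y z w] }
  refine hB.squares e fun n x y => ?_
  have := hO n x y
  simp only [negT, Finset.sum_neg_distrib]
  linarith

/-- the form of the squares on general vectors -/
theorem square_eq (e : OrthonormalBasis (Ix m) ℝ V) {R : V → V → V → V → ℝ} (hR : AlgCurv R)
    {n : ℕ} {ν : Fin n → Ix m → Ix m → ℝ}
    (h : ∀ i j k l, -R (e i) (e j) (e k) (e l) = ∑ a, ν a i j * ν a k l) (v w v' w' : EE m) :
    -R (vv e v) (vv e w) (vv e v') (vv e w') = ∑ a, bf (ν a) v w * bf (ν a) v' w' := by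
  rw [vv_eq, vv_eq, vv_eq, vv_eq, ← Pool.Agent.TH598.GV.rq_eq hR e]
  unfold Pool.Agent.TH598.GV.rq
  simp only [h]
  have h0 : ∀ i j k l : Ix m, (∑ a, ν a i j * ν a k l) * (v i * w j * v' k * w' l) =
      ∑ a, ν a i j * ν a k l * (v i * w j * v' k * w' l) := fun i j k l => Finset.sum_mul _ _ _
  simp only [h0]
  have h1 : ∀ i j k : Ix m, ∑ l : Ix m, ∑ a, ν a i j * ν a k l * (v i * w j * v' k * w' l) =
      ∑ a, ∑ l : Ix m, ν a i j * ν a k l * (v i * w j * v' k * w' l) :=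
    fun i j k => Finset.sum_comm
  simp only [h1]
  have h2 : ∀ i j : Ix m, ∑ k : Ix m, ∑ a, ∑ l : Ix m,
      ν a i j * ν a k l * (v i * w j * v' k * w' l) =
      ∑ a, ∑ k : Ix m, ∑ l : Ix m, ν a i j * ν a k l * (v i * w j * v' k * w' l) :=
    fun i j => Finset.sum_comm
  simp only [h2]
  have h3 : ∀ i : Ix m, ∑ j : Ix m, ∑ a, ∑ k : Ix m, ∑ l : Ix m,
      ν a i j * ν a k l * (v i * w j * v' k * w' l) =
      ∑ a, ∑ j : Ix m, ∑ k : Ix m, ∑ l : Ix m, ν a i j * ν a k l * (v i * w j * v' k * w' l) :=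
    fun i => Finset.sum_comm
  simp only [h3]
  rw [Finset.sum_comm]
  refine Finset.sum_congr rfl fun a _ => ?_
  have h4 : ∀ i j : Ix m, ∑ k : Ix m, ∑ l : Ix m,
      ν a i j * ν a k l * (v i * w j * v' k * w' l) =
      (ν a i j * (v i * w j)) * bf (ν a) v' w' := by
    intro i j
    unfold bf
    simp only [Finset.mul_sum]
    exact Finset.sum_congr rfl fun k _ => Finset.sum_congr rfl fun l _ => by ring
  simp only [h4, ← Finset.sum_mul]
  rfl

/-- the normalising constant -/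
noncomputable def cc (m : ℕ) : ℝ := (8 * Real.pi) ^ m * m.factorial

theorem cc_pos (m : ℕ) : 0 < cc m := by
  have := Real.pi_pos
  unfold cc
  positivity

/-- **The integrand as a sum of squares.** -/
theorem gbc_eq_SQ (e : OrthonormalBasis (Ix m) ℝ V) {R : V → V → V → V → ℝ}
    {n : ℕ} {ν : Fin n → Ix m → Ix m → ℝ}
    (h : ∀ i j k l, -R (e i) (e j) (e k) (e l) = ∑ a, ν a i j * ν a k l) :
    cc m * ((-1) ^ m * gbc e R) = SQ ν := by
  rw [← SQ_eq]
  simp only [← h]
  have h2 : ∀ σ τ : Equiv.Perm (Fin m × Bool), ∏ b : Fin m,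
      -R (e (σ (b, false))) (e (σ (b, true))) (e (τ (b, false))) (e (τ (b, true))) =
      (-1) ^ m * ∏ b : Fin m,
        R (e (σ (b, false))) (e (σ (b, true))) (e (τ (b, false))) (e (τ (b, true))) := by
    intro σ τ
    rw [Finset.prod_neg, Finset.card_univ, Fintype.card_fin]
  simp only [h2]
  unfold gbc
  have hc := (cc_pos m).ne'
  have h3 : cc m * ((-1) ^ m * (1 / ((8 * Real.pi) ^ m * (m.factorial : ℝ)) *
      ∑ σ : Equiv.Perm (Fin m × Bool), ∑ τ : Equiv.Perm (Fin m × Bool),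
      ((Equiv.Perm.sign σ : ℤ) : ℝ) * ((Equiv.Perm.sign τ : ℤ) : ℝ) *
        ∏ b : Fin m, R (e (σ (b, false))) (e (σ (b, true))) (e (τ (b, false)))
          (e (τ (b, true))))) =
      (cc m * (1 / cc m)) * ((-1) ^ m *
      ∑ σ : Equiv.Perm (Fin m × Bool), ∑ τ : Equiv.Perm (Fin m × Bool),
      ((Equiv.Perm.sign σ : ℤ) : ℝ) * ((Equiv.Perm.sign τ : ℤ) : ℝ) *
        ∏ b : Fin m, R (e (σ (b, false))) (e (σ (b, true))) (e (τ (b, false)))
          (e (τ (b, true)))) := by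
    unfold cc
    ring
  rw [h3, mul_one_div_cancel hc, one_mul, Finset.mul_sum]
  refine Finset.sum_congr rfl fun σ _ => ?_
  rw [Finset.mul_sum]
  refine Finset.sum_congr rfl fun τ _ => ?_
  unfold sn
  ring

theorem SQ_nonneg {k n : ℕ} (ν : Fin n → Ix k → Ix k → ℝ) : 0 ≤ SQ ν :=
  Finset.sum_nonneg fun _ _ => sq_nonneg _

theorem sign_nonneg (e : OrthonormalBasis (Ix m) ℝ V) {R : V → V → V → V → ℝ} (hR : AlgCurv R)
    (hO : OpNonpos R) : 0 ≤ (-1) ^ m * gbc e R := by
  obtain ⟨n, ν, -, h⟩ := squares e hR hO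
  have h1 := gbc_eq_SQ e h
  have h2 := SQ_nonneg ν
  rw [← h1] at h2
  exact nonneg_of_mul_nonneg_right h2 (cc_pos m)

/-- the sectional curvature in coordinates -/
theorem sec_coord (e : OrthonormalBasis (Ix m) ℝ V) {R : V → V → V → V → ℝ} (hR : AlgCurv R)
    {n : ℕ} {ν : Fin n → Ix m → Ix m → ℝ}
    (h : ∀ i j k l, -R (e i) (e j) (e k) (e l) = ∑ a, ν a i j * ν a k l) {κ : ℝ}
    (hs : ∀ x y : V, ‖x‖ = 1 → ‖y‖ = 1 → inner ℝ x y = 0 → R x y x y ≤ -κ) (v w : EE m)
    (hv : ‖v‖ = 1) (hw : ‖w‖ = 1) (hvw : inner ℝ v w = 0) :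
    κ ≤ ∑ a, bf (ν a) v w ^ 2 := by
  have h1 := square_eq e hR h v w v w
  have h2 := hs (vv e v) (vv e w) (by unfold vv; rw [LinearIsometryEquiv.norm_map]; exact hv)
    (by unfold vv; rw [LinearIsometryEquiv.norm_map]; exact hw)
    (by unfold vv; rw [LinearIsometryEquiv.inner_map_map]; exact hvw)
  simp only [sq]
  rw [← h1]
  linarith

/-- **The pointwise inequality.** -/
theorem point_quant (e : OrthonormalBasis (Ix m) ℝ V) {R : V → V → V → V → ℝ} (hR : AlgCurv R)
    (hO : OpNonpos R) {κ : ℝ} (hκ : 0 ≤ κ)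
    (hs : ∀ x y : V, ‖x‖ = 1 → ‖y‖ = 1 → inner ℝ x y = 0 → R x y x y ≤ -κ) :
    κ ^ m ≤ Real.exp (m * (m + 1)) * cc m * ((-1) ^ m * gbc e R) := by
  obtain ⟨n, ν, hν, h⟩ := squares e hR hO
  rw [mul_assoc, gbc_eq_SQ e h]
  exact SQ_large hν hκ fun v w hv hw hvw => sec_coord e hR h hs v w hv hw hvw

end

end Pool.Agent.H17.NO
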