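import Pool.Agent.H17.NO.Max

/-!
# Change of the frame
-/

set_option autoImplicit false

namespace Pool.Agent.H17.NO

open Finset Pool.Agent.W666.GB Module

section

variable {m : ℕ}

/-- product of the values -/
noncomputable def TP (N : Ix m → Ix m → ℝ) (u : Ix m → EE m) : ℝ :=
  ∏ b : Fin m, bf N (u (b, false)) (u (b, true))

theorem TP_split [DecidableEq (Ix m)] (N : Ix m → Ix m → ℝ) (u : Ix m → EE m)
    (b0 : Fin m) (β : Bool) (x : EE m) :
    TP N (Function.update u (b0, β) x) =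
      bf N (Function.update u (b0, β) x (b0, false)) (Function.update u (b0, β) x (b0, true)) *
      ∏ b ∈ univ.erase b0, bf N (u (b, false)) (u (b, true)) := by
  unfold TP
  rw [← Finset.mul_prod_erase _ _ (Finset.mem_univ b0)]
  congr 1
  apply Finset.prod_congr rfl
  intro b hb
  have hb' : b ≠ b0 := Finset.ne_of_mem_erase hb
  rw [Function.update_of_ne (fun h => hb' (congrArg Prod.fst h)),
    Function.update_of_ne (fun h => hb' (congrArg Prod.fst h))]

theorem TP_add [DecidableEq (Ix m)] (N : Ix m → Ix m → ℝ)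
    (u : Ix m → EE m) (i : Ix m) (x y : EE m) :
    TP N (Function.update u i (x + y)) =
      TP N (Function.update u i x) + TP N (Function.update u i y) := by
  obtain ⟨b0, β⟩ := i
  have h1 : ((b0, true) : Fin m × Bool) ≠ (b0, false) := by simp
  have h2 : ((b0, false) : Fin m × Bool) ≠ (b0, true) := by simp
  rw [TP_split, TP_split, TP_split]
  cases β
  · simp only [Function.update_self, Function.update_of_ne h1, bf_add_left]
    ring
  · simp only [Function.update_self, Function.update_of_ne h2, bf_add_right]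
    ring

theorem TP_smul [DecidableEq (Ix m)] (N : Ix m → Ix m → ℝ)
    (u : Ix m → EE m) (i : Ix m) (t : ℝ) (x : EE m) :
    TP N (Function.update u i (t • x)) = t * TP N (Function.update u i x) := by
  obtain ⟨b0, β⟩ := i
  have h1 : ((b0, true) : Fin m × Bool) ≠ (b0, false) := by simp
  have h2 : ((b0, false) : Fin m × Bool) ≠ (b0, true) := by simp
  rw [TP_split, TP_split]
  cases β
  · simp only [Function.update_self, Function.update_of_ne h1, bf_smul_left]
    ring
  · simp only [Function.update_self, Function.update_of_ne h2, bf_smul_right]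
    ring

/-- the multilinear map -/
noncomputable def ML (N : Ix m → Ix m → ℝ) : MultilinearMap ℝ (fun _ : Ix m => EE m) ℝ where
  toFun u := TP N u
  map_update_add' := by
    intro _ u i x y
    exact TP_add N u i x y
  map_update_smul' := by
    intro _ u i t x
    rw [smul_eq_mul]
    exact TP_smul N u i t x

theorem ML_alt (N : Ix m → Ix m → ℝ) (u : Ix m → EE m) :
    MultilinearMap.alternatization (ML N) u =
      PF (fun _ : Fin m => fun i j => bf N (u i) (u j)) := by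
  rw [MultilinearMap.alternatization_apply]
  unfold PF
  refine Finset.sum_congr rfl fun σ _ => ?_
  rw [Units.smul_def, zsmul_eq_mul]
  rfl

theorem bf_basis (N : Ix m → Ix m → ℝ) (i j : Ix m) :
    bf N ((EuclideanSpace.basisFun (Ix m) ℝ) i) ((EuclideanSpace.basisFun (Ix m) ℝ) j) =
      N i j := by
  unfold bf
  rw [Finset.sum_eq_single i]
  · rw [Finset.sum_eq_single j]
    · simp
    · intro b _ hb
      simp [hb]
    · intro h; exact absurd (Finset.mem_univ _) h
  · intro a _ ha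
    refine Finset.sum_eq_zero fun b _ => ?_
    simp [ha]
  · intro h; exact absurd (Finset.mem_univ _) h

/-- **Change of the frame.** -/
theorem PF_frame (N : Ix m → Ix m → ℝ) (u : Ix m → EE m) :
    PF (fun _ : Fin m => fun i j => bf N (u i) (u j)) =
      PF (fun _ : Fin m => N) * (EuclideanSpace.basisFun (Ix m) ℝ).toBasis.det u := by
  have h1 := AlternatingMap.eq_smul_basis_det (EuclideanSpace.basisFun (Ix m) ℝ).toBasis
    (MultilinearMap.alternatization (ML N))
  have h2 := congrArg (fun f : EE m [⋀^(Ix m)]→ₗ[ℝ] ℝ => f u) h1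
  simp only [AlternatingMap.smul_apply, smul_eq_mul, OrthonormalBasis.coe_toBasis] at h2
  rw [ML_alt, ML_alt] at h2
  rw [h2]
  simp only [bf_basis]

theorem det_le_one (u : Ix m → EE m) (hu : ∀ j, ‖u j‖ ≤ 1) :
    |(EuclideanSpace.basisFun (Ix m) ℝ).toBasis.det u| ≤ 1 := by
  set A : Matrix (Ix m) (Ix m) ℝ := (EuclideanSpace.basisFun (Ix m) ℝ).toBasis.toMatrix u with hA
  have hAij : ∀ i j, A i j = u j i := by
    intro i j
    rw [hA, Basis.toMatrix_apply]
    simp
  have h1 := det_bound (A.map ((↑) : ℝ → ℂ))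
  have h2 : (A.map ((↑) : ℝ → ℂ)).det = ((A.det : ℝ) : ℂ) := by
    have := RingHom.map_det Complex.ofRealHom A
    rw [Complex.ofRealHom_eq_coe] at this
    rw [this]
    rfl
  have h3 : ∑ i, ∑ j, ‖(A.map ((↑) : ℝ → ℂ)) i j‖ ^ 2 ≤ (Fintype.card (Ix m) : ℝ) := by
    rw [Finset.sum_comm]
    have h4 : ∀ j ∈ (univ : Finset (Ix m)), ∑ i, ‖(A.map ((↑) : ℝ → ℂ)) i j‖ ^ 2 ≤ 1 := by
      intro j _
      have h5 : ∑ i, ‖(A.map ((↑) : ℝ → ℂ)) i j‖ ^ 2 = ‖u j‖ ^ 2 := by
        rw [EuclideanSpace.norm_sq_eq]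
        refine Finset.sum_congr rfl fun i _ => ?_
        rw [Matrix.map_apply, hAij, Complex.norm_real]
      rw [h5]
      exact pow_le_one₀ (norm_nonneg _) (hu j)
    refine (Finset.sum_le_card_nsmul _ _ _ h4).trans (le_of_eq ?_)
    simp
  have h6 : ((∑ i, ∑ j, ‖(A.map ((↑) : ℝ → ℂ)) i j‖ ^ 2) / (Fintype.card (Ix m) : ℝ)) ^
      Fintype.card (Ix m) ≤ 1 := by
    refine pow_le_one₀ ?_ ?_
    · exact div_nonneg (Finset.sum_nonneg fun i _ => Finset.sum_nonneg fun j _ => by positivity)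
        (Nat.cast_nonneg _)
    · exact div_le_one_of_le₀ h3 (Nat.cast_nonneg _)
  have h7 : |A.det| ^ 2 ≤ 1 := by
    rw [h2, Complex.norm_real, Real.norm_eq_abs] at h1
    exact h1.trans h6
  have h8 : |A.det| ≤ 1 := by
    by_contra hc
    push Not at hc
    nlinarith
  exact h8

/-- in the full dimension the frames do not matter -/
theorem Fr_le {n : ℕ} (ν : Fin n → Ix m → Ix m → ℝ) (x : EuclideanSpace ℝ (Fin n))
    (u : Ix m → EE m) (hu : ∀ j, ‖u j‖ ≤ 1) :
    |Fr ν m x u| ≤ |PF (fun _ : Fin m => om ν x)| := by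
  unfold Fr
  rw [PF_frame, abs_mul]
  exact mul_le_of_le_one_right (abs_nonneg _) (det_le_one u hu)

/-- a combination with a large value -/
theorem exists_comb_large {n : ℕ} (ν : Fin n → Ix m → Ix m → ℝ) {κ : ℝ} (h0 : 0 ≤ κ)
    {v w : EE m} (h1 : κ ≤ ∑ a, bf (ν a) v w ^ 2) :
    ∃ y : EuclideanSpace ℝ (Fin n), ‖y‖ ≤ 1 ∧ Real.sqrt κ ≤ bf (om ν y) v w := by
  set s := ∑ a, bf (ν a) v w ^ 2 with hs
  have hs0 : 0 ≤ s := h0.trans h1
  rcases hs0.eq_or_lt with h2 | h2
  · refine ⟨0, by simp, ?_⟩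
    have : κ = 0 := le_antisymm (h1.trans h2.symm.le) h0
    rw [this, Real.sqrt_zero]
    have : om ν (0 : EuclideanSpace ℝ (Fin n)) = fun _ _ => 0 := by
      funext i j
      simp [om]
    rw [this]
    simp [bf]
  · have hq : 0 < Real.sqrt s := Real.sqrt_pos.2 h2
    refine ⟨WithLp.toLp 2 (fun a => (Real.sqrt s)⁻¹ * bf (ν a) v w), ?_, ?_⟩
    · rw [EuclideanSpace.norm_eq]
      refine le_of_eq ?_
      rw [Real.sqrt_eq_one]
      simp only [Real.norm_eq_abs, sq_abs, mul_pow, ← Finset.mul_sum]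
      rw [← hs, inv_pow, Real.sq_sqrt hs0, inv_mul_cancel₀ h2.ne']
    · have h3 : bf (om ν (WithLp.toLp 2 (fun a => (Real.sqrt s)⁻¹ * bf (ν a) v w))) v w =
          Real.sqrt s := by
        unfold om
        rw [bf_lin]
        simp only
        have : ∑ a, (Real.sqrt s)⁻¹ * bf (ν a) v w * bf (ν a) v w = (Real.sqrt s)⁻¹ * s := by
          rw [hs, Finset.mul_sum]
          exact Finset.sum_congr rfl fun a _ => by ring
        rw [this]
        have h4 : s = Real.sqrt s * Real.sqrt s := (Real.mul_self_sqrt hs0).symm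
        calc (Real.sqrt s)⁻¹ * s = (Real.sqrt s)⁻¹ * (Real.sqrt s * Real.sqrt s) := by
              rw [← h4]
          _ = Real.sqrt s := by field_simp
      rw [h3]
      exact Real.sqrt_le_sqrt h1

/-- **Large sum of squares.** -/
theorem SQ_large {n : ℕ} {ν : Fin n → Ix m → Ix m → ℝ} (hν : ∀ a i j, ν a j i = - ν a i j)
    {κ : ℝ} (h0 : 0 ≤ κ)
    (hκ : ∀ v w : EE m, ‖v‖ = 1 → ‖w‖ = 1 → inner ℝ v w = 0 →
      κ ≤ ∑ a, bf (ν a) v w ^ 2) :
    κ ^ m ≤ Real.exp (m * (m + 1)) * SQ ν := by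
  have hδ : ∀ v w : EE m, ‖v‖ = 1 → ‖w‖ = 1 → inner ℝ v w = 0 →
      ∃ y : EuclideanSpace ℝ (Fin n), ‖y‖ ≤ 1 ∧ Real.sqrt κ ≤ bf (om ν y) v w :=
    fun v w hv hw hvw => exists_comb_large ν h0 (hκ v w hv hw hvw)
  obtain ⟨x, u, hx, hu, hxu⟩ := exists_large hν (Real.sqrt_nonneg κ) hδ m le_rfl
  have h1 := hxu.trans (mul_le_mul_of_nonneg_left (Fr_le ν x u hu) (Real.exp_pos _).le)
  have h2 := pow_le_pow_left₀ (by positivity) h1 2
  have h3 : (Real.sqrt κ ^ m) ^ 2 = κ ^ m := by
    rw [← pow_mul, mul_comm, pow_mul, Real.sq_sqrt h0]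
  rw [h3, mul_pow, sq_abs, ← Real.exp_nat_mul] at h2
  have h4 : ((2 : ℕ) : ℝ) * (m * (m + 1) / 2) = m * (m + 1) := by push_cast; ring
  rw [h4] at h2
  refine h2.trans (mul_le_mul_of_nonneg_left ?_ (Real.exp_pos _).le)
  have h5 := sq_le_SQ (k := m) (fun a => x a) ν
  have h6 : ∑ a, x a ^ 2 ≤ 1 := by
    have h7 := pow_le_one₀ (n := 2) (norm_nonneg _) hx
    rw [EuclideanSpace.norm_sq_eq] at h7
    simpa using h7
  have h7 : 0 ≤ SQ ν := Finset.sum_nonneg fun s _ => sq_nonneg _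
  have h8 : (∑ a, x a ^ 2) ^ m ≤ 1 :=
    pow_le_one₀ (Finset.sum_nonneg fun a _ => sq_nonneg _) h6
  calc PF (fun _ : Fin m => om ν x) ^ 2 ≤ (∑ a, x a ^ 2) ^ m * SQ ν := h5
    _ ≤ 1 * SQ ν := mul_le_mul_of_nonneg_right h8 h7
    _ = SQ ν := one_mul _

end

end Pool.Agent.H17.NO
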