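import Pool.Agent.H17.NO.Nondeg

/-!
# Pointwise and integrated results for nonpositive curvature operators
-/

set_option autoImplicit false

namespace Pool.Agent.H17.NO

open Finset Pool.Agent.W666.GB Pool.Agent.W669.HD Module MeasureTheory

section

variable {V : Type} [NormedAddCommGroup V] [InnerProductSpace ℝ V] {m : ℕ}

/-- The image of the bivector `∑ t, x t ∧ y t` under the curvature operator of `R`. -/
def curvForm (R : V → V → V → V → ℝ) {k : ℕ} (x y : Fin k → V) (v w : V) : ℝ :=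
  ∑ t, R (x t) (y t) v w

/-- The Pfaffian of the two-form `φ` with respect to the orthonormal basis `e`. -/
noncomputable def pfaff (e : OrthonormalBasis (Ix m) ℝ V) (φ : V → V → ℝ) : ℝ :=
  1 / (2 ^ m * m.factorial) * ∑ σ : Equiv.Perm (Fin m × Bool),
    ((Equiv.Perm.sign σ : ℤ) : ℝ) * ∏ b : Fin m, φ (e (σ (b, false))) (e (σ (b, true)))

/-- The two-form `φ` is nondegenerate. -/
def Nondeg (φ : V → V → ℝ) : Prop := ∀ v : V, v ≠ 0 → ∃ w : V, φ v w ≠ 0

theorem vv_single (e : OrthonormalBasis (Ix m) ℝ V) (i : Ix m) :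
    vv e (EuclideanSpace.basisFun (Ix m) ℝ i) = e i := by
  unfold vv
  rw [EuclideanSpace.basisFun_apply]
  exact e.repr_symm_single i

theorem vv_repr (e : OrthonormalBasis (Ix m) ℝ V) (x : V) : vv e (e.repr x) = x := by
  unfold vv
  exact e.repr.symm_apply_apply x

/-- the components of the image of a bivector -/
theorem curvForm_comp (e : OrthonormalBasis (Ix m) ℝ V) {R : V → V → V → V → ℝ} (hR : AlgCurv R)
    {n : ℕ} {ν : Fin n → Ix m → Ix m → ℝ}
    (h : ∀ i j k l, -R (e i) (e j) (e k) (e l) = ∑ a, ν a i j * ν a k l) {k : ℕ}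
    (x y : Fin k → V) (v w : EE m) :
    curvForm R x y (vv e v) (vv e w) =
      -∑ a, (∑ t, bf (ν a) (e.repr (x t)) (e.repr (y t))) * bf (ν a) v w := by
  unfold curvForm
  simp only [Finset.sum_mul]
  rw [Finset.sum_comm, ← Finset.sum_neg_distrib]
  refine Finset.sum_congr rfl fun t _ => ?_
  have h1 := square_eq e hR h (e.repr (x t)) (e.repr (y t)) v w
  rw [vv_repr, vv_repr] at h1
  rw [← h1, neg_neg]

theorem form_value (e : OrthonormalBasis (Ix m) ℝ V) {R : V → V → V → V → ℝ} (hR : AlgCurv R)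
    {n : ℕ} {ν : Fin n → Ix m → Ix m → ℝ}
    (h : ∀ i j k l, -R (e i) (e j) (e k) (e l) = ∑ a, ν a i j * ν a k l) {k : ℕ}
    (x y : Fin k → V) :
    -∑ s, ∑ t, R (x s) (y s) (x t) (y t) =
      ∑ a, (∑ t, bf (ν a) (e.repr (x t)) (e.repr (y t))) ^ 2 := by
  have h2 : ∀ s t, R (x s) (y s) (x t) (y t) =
      -∑ a, bf (ν a) (e.repr (x s)) (e.repr (y s)) * bf (ν a) (e.repr (x t)) (e.repr (y t)) := by
    intro s t
    have h1 := square_eq e hR h (e.repr (x s)) (e.repr (y s)) (e.repr (x t)) (e.repr (y t))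
    rw [vv_repr, vv_repr, vv_repr, vv_repr] at h1
    rw [← h1, neg_neg]
  simp only [h2, Finset.sum_neg_distrib, neg_neg, sq, Finset.sum_mul_sum]
  have h3 : ∀ s : Fin k, ∑ t : Fin k, ∑ a : Fin n, bf (ν a) (e.repr (x s)) (e.repr (y s)) *
      bf (ν a) (e.repr (x t)) (e.repr (y t)) = ∑ a : Fin n, ∑ t : Fin k,
      bf (ν a) (e.repr (x s)) (e.repr (y s)) * bf (ν a) (e.repr (x t)) (e.repr (y t)) :=
    fun s => Finset.sum_comm
  simp only [h3]
  exact Finset.sum_comm

/-- **The Pfaffians of the forms in the image of the curvature operator.** -/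
theorem pfaff_bound (e : OrthonormalBasis (Ix m) ℝ V) {R : V → V → V → V → ℝ} (hR : AlgCurv R)
    (hO : OpNonpos R) {k : ℕ} (x y : Fin k → V) :
    pfaff e (curvForm R x y) ^ 2 ≤ (2 * Real.pi) ^ m / m.factorial *
      (-∑ s, ∑ t, R (x s) (y s) (x t) (y t)) ^ m * ((-1) ^ m * gbc e R) := by
  obtain ⟨n, ν, hν, h⟩ := squares e hR hO
  have h1 := sq_le_SQ (k := m) (fun a => ∑ t, bf (ν a) (e.repr (x t)) (e.repr (y t))) ν
  rw [← form_value e hR h x y, ← gbc_eq_SQ e h] at h1
  have h2 : (fun i j : Ix m => curvForm R x y (e i) (e j)) =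
      fun i j => (-1) * ∑ a, (∑ t, bf (ν a) (e.repr (x t)) (e.repr (y t))) * ν a i j := by
    funext i j
    have h3 := curvForm_comp e hR h x y (EuclideanSpace.basisFun (Ix m) ℝ i)
      (EuclideanSpace.basisFun (Ix m) ℝ j)
    rw [vv_single, vv_single] at h3
    rw [h3]
    simp only [bf_basis]
    ring
  have h4 : pfaff e (curvForm R x y) = 1 / (2 ^ m * m.factorial) *
      ((-1) ^ m * PF (fun _ : Fin m => fun i j => ∑ a,
        (∑ t, bf (ν a) (e.repr (x t)) (e.repr (y t))) * ν a i j)) := by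
    rw [← PF_smul, ← h2]
    rfl
  have hf : (0 : ℝ) < (m.factorial : ℝ) := by exact_mod_cast m.factorial_pos
  have hπ := Real.pi_pos
  have h5 : ((-1 : ℝ) ^ m) ^ 2 = 1 := by
    rw [← pow_mul, mul_comm, pow_mul]; simp
  rw [h4, mul_pow, mul_pow, h5, one_mul]
  refine (mul_le_mul_of_nonneg_left h1 (by positivity)).trans (le_of_eq ?_)
  unfold cc
  have h8 : (8 * Real.pi) ^ m = (2 ^ m) ^ 2 * (2 * Real.pi) ^ m := by
    rw [← pow_mul, mul_comm m 2, pow_mul, ← mul_pow]; norm_num
    ring_nf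
  rw [h8]
  field_simp

/-- nondegenerate forms in coordinates -/
theorem nondeg_iff (e : OrthonormalBasis (Ix m) ℝ V) {φ : V → V → ℝ} {N : Ix m → Ix m → ℝ}
    (h : ∀ v w : EE m, φ (vv e v) (vv e w) = bf N v w) :
    Nondeg φ ↔ ∀ v : EE m, v ≠ 0 → ∃ w, bf N v w ≠ 0 := by
  constructor
  · intro hn v hv
    have h1 : vv e v ≠ 0 := by
      unfold vv
      intro h0
      exact hv (by simpa using h0)
    obtain ⟨w, hw⟩ := hn _ h1
    refine ⟨e.repr w, ?_⟩
    rw [← h, vv_repr]
    exact hw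
  · intro hn v hv
    have h1 : e.repr v ≠ 0 := by
      intro h0
      exact hv (by simpa using h0)
    obtain ⟨w, hw⟩ := hn _ h1
    refine ⟨vv e w, ?_⟩
    rw [← h, vv_repr] at hw
    exact hw

/-- **The criterion**: the integrand vanishes if and only if all forms in the image of the
curvature operator are degenerate. -/
theorem gbc_ne_iff (e : OrthonormalBasis (Ix m) ℝ V) {R : V → V → V → V → ℝ} (hR : AlgCurv R)
    (hO : OpNonpos R) :
    gbc e R ≠ 0 ↔ ∃ (k : ℕ) (x y : Fin k → V), Nondeg (curvForm R x y) := by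
  classical
  obtain ⟨n, ν, hν, h⟩ := squares e hR hO
  have hcomp : ∀ (k : ℕ) (x y : Fin k → V) (v w : EE m), curvForm R x y (vv e v) (vv e w) =
      bf (om ν (WithLp.toLp 2 fun a => -∑ t, bf (ν a) (e.repr (x t)) (e.repr (y t)))) v w := by
    intro k x y v w
    rw [curvForm_comp e hR h]
    unfold om
    rw [bf_lin, ← Finset.sum_neg_distrib]
    refine Finset.sum_congr rfl fun a _ => ?_
    ring
  have h0 : gbc e R ≠ 0 ↔ SQ ν ≠ 0 := by
    rw [← gbc_eq_SQ e h]
    have h1 : ((-1 : ℝ) ^ m) ≠ 0 := pow_ne_zero _ (by norm_num)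
    simp only [ne_eq, mul_eq_zero, (cc_pos m).ne', h1, false_or]
  rw [h0]
  constructor
  · intro hS
    obtain ⟨x, hx⟩ := exists_comb hS
    obtain ⟨A, hA⟩ := exists_image ν x
    let c := (Fintype.equivFin (Ix m × Ix m)).symm
    refine ⟨_, fun t => A (c t) • e (c t).1, fun t => e (c t).2, ?_⟩
    have h2 := (PF_ne_iff (fun i j => om_anti hν x i j)).1 hx
    have h3 : ∀ v w : EE m, curvForm R (fun t => A (c t) • e (c t).1) (fun t => e (c t).2)
        (vv e v) (vv e w) = bf (fun i j => (-1) * om ν x i j) v w := by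
      intro v w
      have h4 : curvForm R (fun t => A (c t) • e (c t).1) (fun t => e (c t).2)
          (vv e v) (vv e w) = ∑ p : Ix m × Ix m, A p * R (e p.1) (e p.2) (vv e v) (vv e w) := by
        unfold curvForm
        simp only [hR.smul]
        exact Equiv.sum_comp c (fun p => A p * R (e p.1) (e p.2) (vv e v) (vv e w))
      have h5 : ∀ p : Ix m × Ix m, R (e p.1) (e p.2) (vv e v) (vv e w) =
          -∑ a, ν a p.1 p.2 * bf (ν a) v w := by
        intro p
        have h6 := square_eq e hR h (EuclideanSpace.basisFun (Ix m) ℝ p.1)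
          (EuclideanSpace.basisFun (Ix m) ℝ p.2) v w
        rw [vv_single, vv_single] at h6
        simp only [bf_basis] at h6
        rw [← h6, neg_neg]
      rw [h4]
      simp only [h5]
      have h7 : (fun i j : Ix m => (-1) * om ν x i j) = fun i j => ∑ a : Fin n,
          (-∑ p : Ix m × Ix m, A p * ν a p.1 p.2) * ν a i j := by
        funext i j
        rw [hA]
        simp only [Finset.mul_sum, neg_mul, Finset.sum_mul, one_mul, Finset.sum_neg_distrib]
        rw [Finset.sum_comm]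
        congr 1
        exact Finset.sum_congr rfl fun a _ => Finset.sum_congr rfl fun p _ => by ring
      rw [h7, bf_lin]
      simp only [mul_neg, neg_mul, Finset.sum_neg_distrib, Finset.mul_sum, Finset.sum_mul]
      rw [Finset.sum_comm]
      congr 1
      exact Finset.sum_congr rfl fun a _ => Finset.sum_congr rfl fun p _ => by ring
    rw [nondeg_iff e h3]
    intro v hv
    obtain ⟨w, hw⟩ := h2 v hv
    refine ⟨w, ?_⟩
    have h8 : bf (fun i j => (-1) * om ν x i j) v w = - bf (om ν x) v w := by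
      unfold bf
      rw [← Finset.sum_neg_distrib]
      refine Finset.sum_congr rfl fun i _ => ?_
      rw [← Finset.sum_neg_distrib]
      exact Finset.sum_congr rfl fun j _ => by ring
    rw [h8]
    exact neg_ne_zero.2 hw
  · rintro ⟨k, x, y, hn⟩ hS
    rw [nondeg_iff e (hcomp k x y)] at hn
    have h2 := (PF_ne_iff (fun i j => om_anti hν _ i j)).2 hn
    apply h2
    have h3 := sq_le_SQ (k := m) (fun a => -∑ t, bf (ν a) (e.repr (x t)) (e.repr (y t))) ν
    rw [hS, mul_zero] at h3
    exact pow_eq_zero_iff two_ne_zero |>.1 (le_antisymm h3 (sq_nonneg _))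

/-- negative sectional curvature is uniformly negative -/
theorem exists_kappa (e : OrthonormalBasis (Ix m) ℝ V) {R : V → V → V → V → ℝ} (hR : AlgCurv R)
    (hO : OpNonpos R)
    (hs : ∀ x y : V, ‖x‖ = 1 → ‖y‖ = 1 → inner ℝ x y = 0 → R x y x y < 0) :
    ∃ κ : ℝ, 0 < κ ∧ ∀ x y : V, ‖x‖ = 1 → ‖y‖ = 1 → inner ℝ x y = 0 → R x y x y ≤ -κ := by
  obtain ⟨n, ν, hν, h⟩ := squares e hR hO
  let S : Set (EE m × EE m) := {p | ‖p.1‖ = 1 ∧ ‖p.2‖ = 1 ∧ inner ℝ p.1 p.2 = 0}
  have hval : ∀ x y : V, R x y x y = -∑ a, bf (ν a) (e.repr x) (e.repr y) ^ 2 := by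
    intro x y
    have h1 := square_eq e hR h (e.repr x) (e.repr y) (e.repr x) (e.repr y)
    rw [vv_repr, vv_repr] at h1
    simp only [sq]
    rw [← h1, neg_neg]
  have hmem : ∀ x y : V, ‖x‖ = 1 → ‖y‖ = 1 → inner ℝ x y = 0 →
      ((e.repr x, e.repr y) : EE m × EE m) ∈ S := by
    intro x y hx hy hxy
    refine ⟨?_, ?_, ?_⟩
    · rw [LinearIsometryEquiv.norm_map]; exact hx
    · rw [LinearIsometryEquiv.norm_map]; exact hy
    · rw [LinearIsometryEquiv.inner_map_map]; exact hxy
  have hcl : IsClosed S := by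
    refine IsClosed.inter ?_ (IsClosed.inter ?_ ?_)
    · exact isClosed_eq (continuous_fst.norm) continuous_const
    · exact isClosed_eq (continuous_snd.norm) continuous_const
    · exact isClosed_eq (continuous_fst.inner continuous_snd) continuous_const
  have hK : IsCompact S := by
    refine ((isCompact_closedBall (0 : EE m) 1).prod
      (isCompact_closedBall (0 : EE m) 1)).of_isClosed_subset hcl ?_
    rintro ⟨v, w⟩ ⟨h1, h2, -⟩
    exact Set.mem_prod.2 ⟨mem_closedBall_zero_iff.2 (le_of_eq h1),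
      mem_closedBall_zero_iff.2 (le_of_eq h2)⟩
  have hc : Continuous fun p : EE m × EE m => ∑ a, bf (ν a) p.1 p.2 ^ 2 := by
    refine continuous_finsetSum _ fun a _ => Continuous.pow ?_ 2
    unfold bf
    refine continuous_finsetSum _ fun i _ => continuous_finsetSum _ fun j _ => ?_
    refine Continuous.mul continuous_const (Continuous.mul ?_ ?_)
    · exact (EuclideanSpace.proj (𝕜 := ℝ) i).continuous.comp continuous_fst
    · exact (EuclideanSpace.proj (𝕜 := ℝ) j).continuous.comp continuous_snd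
  rcases S.eq_empty_or_nonempty with hS | hS
  · refine ⟨1, one_pos, fun x y hx hy hxy => ?_⟩
    have := hmem x y hx hy hxy
    rw [hS] at this
    exact absurd this (Set.notMem_empty _)
  · obtain ⟨⟨v, w⟩, hp, hmin⟩ := hK.exists_isMinOn hS hc.continuousOn
    rw [isMinOn_iff] at hmin
    refine ⟨∑ a, bf (ν a) v w ^ 2, ?_, fun x y hx hy hxy => ?_⟩
    · have h1 := hs (vv e v) (vv e w)
        (by unfold vv; rw [LinearIsometryEquiv.norm_map]; exact hp.1)
        (by unfold vv; rw [LinearIsometryEquiv.norm_map]; exact hp.2.1)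
        (by unfold vv; rw [LinearIsometryEquiv.inner_map_map]; exact hp.2.2)
      have h2 := square_eq e hR h v w v w
      simp only [sq]
      rw [← h2]
      linarith
    · rw [hval]
      have := hmin _ (hmem x y hx hy hxy)
      simp only at this
      linarith

/-- **Strict sign for negative sectional curvature.** -/
theorem point_strict (e : OrthonormalBasis (Ix m) ℝ V) {R : V → V → V → V → ℝ} (hR : AlgCurv R)
    (hO : OpNonpos R)
    (hs : ∀ x y : V, ‖x‖ = 1 → ‖y‖ = 1 → inner ℝ x y = 0 → R x y x y < 0) :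
    0 < (-1) ^ m * gbc e R := by
  obtain ⟨κ, hκ, h⟩ := exists_kappa e hR hO hs
  have h1 := point_quant e hR hO hκ.le h
  have h2 : 0 < κ ^ m := by positivity
  have h3 : 0 < Real.exp (m * (m + 1)) * cc m := mul_pos (Real.exp_pos _) (cc_pos m)
  exact pos_of_mul_pos_of_pos_left' h3 (h2.trans_le h1)
where
  pos_of_mul_pos_of_pos_left' {a b : ℝ} (ha : 0 < a) (h : 0 < a * b) : 0 < b :=
    (mul_pos_iff_of_pos_left ha).1 h

end

end Pool.Agent.H17.NO
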