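import Pool.Agent.H17.NO.Slot
import Pool.Agent.H17.NO.Main

/-!
# Curvature operators with a small positive part
-/

set_option autoImplicit false

namespace Pool.Agent.H17.NO

open Finset Pool.Agent.W666.GB Pool.Agent.W669.HD Module MeasureTheory

/-- weighted sums of squares -/
theorem WSQ_eq {k : ℕ} {I : Type} [Fintype I] [DecidableEq I] (W : I → ℝ)
    (ρ : I → Ix k → Ix k → ℝ) :
    ∑ σ : Equiv.Perm (Ix k), ∑ τ : Equiv.Perm (Ix k), sn σ * sn τ *
      ∏ b : Fin k, ∑ c, W c * (ρ c (σ (b, false)) (σ (b, true)) *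
        ρ c (τ (b, false)) (τ (b, true))) =
      ∑ s : Fin k → I, (∏ b, W (s b)) * PF (fun b => ρ (s b)) ^ 2 := by
  unfold PF
  simp only [Fintype.prod_sum, Finset.mul_sum, sq, Finset.sum_mul]
  have h1 : ∀ σ : Equiv.Perm (Ix k), ∑ τ : Equiv.Perm (Ix k), ∑ s : Fin k → I,
      sn σ * sn τ * ∏ b, W (s b) * (ρ (s b) (σ (b, false)) (σ (b, true)) *
        ρ (s b) (τ (b, false)) (τ (b, true))) =
      ∑ s : Fin k → I, ∑ τ : Equiv.Perm (Ix k), sn σ * sn τ *
        ∏ b, W (s b) * (ρ (s b) (σ (b, false)) (σ (b, true)) *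
        ρ (s b) (τ (b, false)) (τ (b, true))) :=
    fun σ => Finset.sum_comm
  rw [Finset.sum_congr rfl fun σ _ => h1 σ, Finset.sum_comm]
  refine Finset.sum_congr rfl fun s _ => ?_
  rw [Finset.sum_comm]
  refine Finset.sum_congr rfl fun τ _ => Finset.sum_congr rfl fun σ _ => ?_
  rw [Finset.prod_mul_distrib, Finset.prod_mul_distrib]
  ring

theorem unit_squares {m : ℕ} (i j k l : Ix m) :
    ∑ p : Ix m × Ix m, Eu p i j * Eu p k l = 2 * unitCurv i j k l := by
  have h1 : ∀ X : Ix m × Ix m → ℝ, ∑ p : Ix m × Ix m, Eu p i j * X p = X (i, j) - X (j, i) := by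
    intro X
    unfold Eu
    simp only [sub_mul, Finset.sum_sub_distrib]
    congr 1
    · rw [Finset.sum_eq_single (i, j)]
      · simp
      · rintro ⟨a, b⟩ _ hab
        by_cases h2 : i = a
        · have h3 : ¬ j = b := fun h3 => hab (by rw [h2, h3])
          simp [h3]
        · simp [h2]
      · intro hn; exact absurd (Finset.mem_univ _) hn
    · rw [Finset.sum_eq_single (j, i)]
      · simp
      · rintro ⟨a, b⟩ _ hab
        by_cases h2 : i = b
        · have h3 : ¬ j = a := fun h3 => hab (by rw [h2, h3])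
          simp [h3]
        · simp [h2]
      · intro hn; exact absurd (Finset.mem_univ _) hn
  rw [h1]
  unfold Eu unitCurv
  simp only [eq_comm (a := k) (b := i), eq_comm (a := l) (b := j), eq_comm (a := k) (b := j),
    eq_comm (a := l) (b := i)]
  ring

section

variable {V : Type} [NormedAddCommGroup V] [InnerProductSpace ℝ V] {m : ℕ}

/-- The eigenvalues of the curvature operator of `R` are at most `ε`. -/
def OpLe (R : V → V → V → V → ℝ) (ε : ℝ) : Prop :=
  ∀ (n : ℕ) (x y : Fin n → V), ∑ a, ∑ b, R (x a) (y a) (x b) (y b) ≤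
    ε * ∑ a, ∑ b, (inner ℝ (x a) (x b) * inner ℝ (y a) (y b) -
      inner ℝ (x a) (y b) * inner ℝ (y a) (x b))

theorem opLe_shift {R : V → V → V → V → ℝ} {ε : ℝ} (h : OpLe R ε) :
    OpNonpos (Pool.Agent.TH598.GV.shiftT R (-ε)) := by
  intro n x y
  have h1 := h n x y
  simp only [Pool.Agent.TH598.GV.shiftT, Finset.sum_add_distrib, Finset.mul_sum] at h1 ⊢
  have h2 : ∑ a, ∑ b, -ε * (inner ℝ (x a) (x b) * inner ℝ (y a) (y b) -
      inner ℝ (x a) (y b) * inner ℝ (y a) (x b)) =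
      -∑ a, ∑ b, ε * (inner ℝ (x a) (x b) * inner ℝ (y a) (y b) -
      inner ℝ (x a) (y b) * inner ℝ (y a) (x b)) := by
    simp only [neg_mul, Finset.sum_neg_distrib]
  rw [h2]
  linarith

/-- the squares, with their number -/
theorem squares_card (e : OrthonormalBasis (Ix m) ℝ V) {R : V → V → V → V → ℝ} (hR : AlgCurv R)
    (hO : OpNonpos R) :
    ∃ (ν : Fin (Fintype.card (Ix m × Ix m)) → Ix m → Ix m → ℝ),
      (∀ a i j, ν a j i = - ν a i j) ∧
      ∀ i j k l, -R (e i) (e j) (e k) (e l) = ∑ a, ν a i j * ν a k l := by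
  classical
  have hB : BiForm (negT R) :=
    { add := fun x x' y z w => by simp only [negT, hR.add]; ring
      smul := fun t x y z w => by simp only [negT, hR.smul]; ring
      anti := fun x y z w => by simp only [negT, hR.anti x y z w]
      pair := fun x y z w => by simp only [negT, hR.pair x y z w] }
  obtain ⟨B, hB'⟩ := sq_real (J := Ix m × Ix m)
    (fun p q => negT R (e p.1) (e p.2) (e q.1) (e q.2))
    (fun p q => (hB.pair _ _ _ _)) (by
      intro x
      have eqv := (Fintype.equivFin (Ix m × Ix m)).symm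
      have h1 := hO _ (fun a => x (eqv a) • e (eqv a).1) (fun a => e (eqv a).2)
      have h2 : ∑ a, ∑ b, R (x (eqv a) • e (eqv a).1) (e (eqv a).2) (x (eqv b) • e (eqv b).1)
          (e (eqv b).2) = -∑ p : Ix m × Ix m, ∑ q : Ix m × Ix m,
            negT R (e p.1) (e p.2) (e q.1) (e q.2) * (x p * x q) := by
        rw [← Finset.sum_neg_distrib, ← Equiv.sum_comp eqv]
        refine Finset.sum_congr rfl fun a _ => ?_
        rw [← Finset.sum_neg_distrib, ← Equiv.sum_comp eqv]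
        refine Finset.sum_congr rfl fun b _ => ?_
        rw [hR.smul, ← hR.pair, hR.smul, ← hR.pair]
        simp only [negT]
        ring
      rw [h2] at h1
      linarith)
  have eqv := (Fintype.equivFin (Ix m × Ix m)).symm
  have hB2 : ∀ i j k l, -R (e i) (e j) (e k) (e l) = ∑ a, B a (i, j) * B a (k, l) :=
    fun i j k l => hB' (i, j) (k, l)
  refine ⟨fun a i j => B (eqv a) (i, j), ?_, ?_⟩
  · have h3 : ∀ i j, ∑ a, (B a (j, i) + B a (i, j)) ^ 2 = 0 := by
      intro i j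
      have h4 : ∑ a, (B a (j, i) + B a (i, j)) ^ 2 = ∑ a, B a (j, i) * B a (j, i) +
          2 * ∑ a, B a (j, i) * B a (i, j) + ∑ a, B a (i, j) * B a (i, j) := by
        rw [Finset.mul_sum, ← Finset.sum_add_distrib, ← Finset.sum_add_distrib]
        refine Finset.sum_congr rfl fun a _ => ?_
        ring
      rw [h4, ← hB2, ← hB2, ← hB2, hR.anti (e i) (e j) (e j) (e i),
        hR.a34 (e i) (e j) (e j) (e i), hR.anti (e i) (e j) (e i) (e j)]
      ring
    intro a i j
    have h5 := (Finset.sum_eq_zero_iff_of_nonneg fun a _ => sq_nonneg _).mp (h3 i j) (eqv a)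
      (Finset.mem_univ _)
    have h6 := pow_eq_zero_iff (two_ne_zero) |>.mp h5
    simp only
    linarith
  · intro i j k l
    rw [hB2]
    exact (Equiv.sum_comp eqv (fun a => B a (i, j) * B a (k, l))).symm

/-- the integrand as a double sum -/
theorem gbc_double (e : OrthonormalBasis (Ix m) ℝ V) (R : V → V → V → V → ℝ) :
    cc m * ((-1) ^ m * gbc e R) =
      ∑ σ : Equiv.Perm (Ix m), ∑ τ : Equiv.Perm (Ix m), sn σ * sn τ *
      ∏ b : Fin m,
      -R (e (σ (b, false))) (e (σ (b, true))) (e (τ (b, false))) (e (τ (b, true))) := by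
  have h2 : ∀ σ τ : Equiv.Perm (Fin m × Bool), ∏ b : Fin m,
      -R (e (σ (b, false))) (e (σ (b, true))) (e (τ (b, false))) (e (τ (b, true))) =
      (-1) ^ m * ∏ b : Fin m,
        R (e (σ (b, false))) (e (σ (b, true))) (e (τ (b, false))) (e (τ (b, true))) := by
    intro σ τ
    rw [Finset.prod_neg, Finset.card_univ, Fintype.card_fin]
  simp only [h2]
  unfold gbc
  have hc := (cc_pos m).ne'
  have h3 : cc m * ((-1) ^ m * (1 / ((8 * Real.pi) ^ m * (m.factorial : ℝ)) *
      ∑ σ : Equiv.Perm (Fin m × Bool), ∑ τ : Equiv.Perm (Fin m × Bool),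
      ((Equiv.Perm.sign σ : ℤ) : ℝ) * ((Equiv.Perm.sign τ : ℤ) : ℝ) *
        ∏ b : Fin m, R (e (σ (b, false))) (e (σ (b, true))) (e (τ (b, false)))
          (e (τ (b, true))))) =
      (cc m * (1 / cc m)) * ((-1) ^ m *
      ∑ σ : Equiv.Perm (Fin m × Bool), ∑ τ : Equiv.Perm (Fin m × Bool),
      ((Equiv.Perm.sign σ : ℤ) : ℝ) * ((Equiv.Perm.sign τ : ℤ) : ℝ) *
        ∏ b : Fin m, R (e (σ (b, false))) (e (σ (b, true))) (e (τ (b, false)))
          (e (τ (b, true)))) := by
    unfold cc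
    ring
  rw [h3, mul_one_div_cancel hc, one_mul, Finset.mul_sum]
  refine Finset.sum_congr rfl fun σ _ => ?_
  rw [Finset.mul_sum]
  refine Finset.sum_congr rfl fun τ _ => ?_
  unfold sn
  ring

end

/-- the weights -/
noncomputable def wt {m n : ℕ} (ε : ℝ) : Fin n ⊕ (Ix m × Ix m) → ℝ :=
  Sum.elim (fun _ => 1) (fun _ => -(ε / 2))

/-- **The weighted sum of squares is at least half of the sum of squares.** -/
theorem weighted {m n : ℕ} (hm : 1 ≤ m) (hn : n = Fintype.card (Ix m × Ix m))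
    {ν : Fin n → Ix m → Ix m → ℝ} (hν : ∀ a i j, ν a j i = - ν a i j) {κ ε : ℝ} (hκ : 0 < κ)
    (h0 : 0 ≤ ε) (hε : ε * ((8 * m ^ 2) ^ (m + 2) * Real.exp (4 * m)) ≤ κ)
    (hs : ∀ v w : EE m, ‖v‖ = 1 → ‖w‖ = 1 → inner ℝ v w = 0 → κ ≤ ∑ a, bf (ν a) v w ^ 2) :
    SQ ν / 2 ≤ ∑ s : Fin m → Fin n ⊕ (Ix m × Ix m),
      (∏ b, wt ε (s b)) * PF (fun b => rho ν (s b)) ^ 2 := by
  classical
  have hm0 : (0 : ℝ) < m := by exact_mod_cast hm
  set δ := Real.sqrt κ with hδdef
  have hδ0 : 0 < δ := Real.sqrt_pos.2 hκ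
  have hδ2 : δ ^ 2 = κ := Real.sq_sqrt hκ.le
  -- the maxima
  choose X U hX hU hmax using fun r => exists_max ν r
  set q : ℕ → ℝ := fun r => |Fr ν r (X r) (U r)| with hqdef
  have hδ : ∀ v w : EE m, ‖v‖ = 1 → ‖w‖ = 1 → inner ℝ v w = 0 →
      ∃ y : EuclideanSpace ℝ (Fin n), ‖y‖ ≤ 1 ∧ δ ≤ bf (om ν y) v w :=
    fun v w hv hw hvw => exists_comb_large ν hκ.le (hs v w hv hw hvw)
  have hstep : ∀ r, r < m → δ * q r ≤ Real.exp (r + 1) * q (r + 1) := fun r hr =>
    step hν hδ hr (hX r) (hU r) (hmax r) (hmax (r + 1))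
  have hqm : q m ^ 2 ≤ SQ ν := by
    have h1 : q m ≤ |PF (fun _ : Fin m => om ν (X m))| := Fr_le ν (X m) (U m) (hU m)
    have h2 := pow_le_pow_left₀ (abs_nonneg _) h1 2
    rw [sq_abs (PF _)] at h2
    refine h2.trans ?_
    have h5 := sq_le_SQ (k := m) (fun a => (X m) a) ν
    have h6 : ∑ a, (X m) a ^ 2 ≤ 1 := by
      have h7 := pow_le_one₀ (n := 2) (norm_nonneg _) (hX m)
      rw [EuclideanSpace.norm_sq_eq] at h7
      simpa using h7
    have h8 : (∑ a, (X m) a ^ 2) ^ m ≤ 1 :=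
      pow_le_one₀ (Finset.sum_nonneg fun a _ => sq_nonneg _) h6
    calc PF (fun _ : Fin m => om ν (X m)) ^ 2 ≤ (∑ a, (X m) a ^ 2) ^ m * SQ ν := h5
      _ ≤ 1 * SQ ν := mul_le_mul_of_nonneg_right h8 (SQ_nonneg ν)
      _ = SQ ν := one_mul _
  set d : ℝ := δ / (8 * m ^ 2 * Real.exp m) with hd
  have hd0 : 0 < d := by positivity
  -- the bound of the mixed terms
  have hmix : ∀ s : Fin m → Fin n ⊕ (Ix m × Ix m),
      (∏ b, Sum.elim (fun _ => (1 : ℝ)) (fun _ => d) (s b)) ^ 2 *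
        PF (fun b => rho ν (s b)) ^ 2 ≤ Real.exp (2 * m) * SQ ν := by
    intro s
    have h1 := mixed_unit hm ν hδ0.le q (fun r x u hx hu => hmax r x u hx hu) hstep m le_rfl s
      (fun i => EuclideanSpace.basisFun (Ix m) ℝ i) (fun i => by simp)
    simp only [bf_basis] at h1
    have h0 : 0 ≤ (∏ b, Sum.elim (fun _ => (1 : ℝ)) (fun _ => d) (s b)) := by
      refine Finset.prod_nonneg fun b _ => ?_
      rcases s b with a | p
      · exact zero_le_one
      · exact hd0.le
    have h2 := pow_le_pow_left₀ (mul_nonneg h0 (abs_nonneg _)) h1 2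
    rw [mul_pow, sq_abs, mul_pow, ← Real.exp_nat_mul] at h2
    refine h2.trans ?_
    have h3 : ((2 : ℕ) : ℝ) * (m : ℝ) = 2 * m := by push_cast; ring
    rw [h3]
    exact mul_le_mul_of_nonneg_left hqm (Real.exp_pos _).le
  -- the ratio
  set a : ℝ := (ε / 2) / d ^ 2 with ha
  have ha0 : 0 ≤ a := by positivity
  have haval : a = ε * (32 * m ^ 4 * Real.exp (2 * m)) / κ := by
    have h1 : Real.exp (2 * (m : ℝ)) = Real.exp m ^ 2 := by
      rw [← Real.exp_nat_mul]; push_cast; ring_nf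
    rw [ha, hd, h1, ← hδ2]
    have := Real.exp_pos (m : ℝ)
    field_simp
    ring
  have hcard : (Fintype.card (Fin m → Fin n ⊕ (Ix m × Ix m)) : ℝ) = (8 * m ^ 2) ^ m := by
    rw [Fintype.card_fun, Fintype.card_sum, Fintype.card_fin, hn, Fintype.card_prod,
      Fintype.card_prod, Fintype.card_fin, Fintype.card_bool]
    push_cast
    congr 1
    ring
  have habound : (8 * (m : ℝ) ^ 2) ^ m * (a * Real.exp (2 * m)) ≤ 1 / 2 := by
    rw [haval]
    have h1 : Real.exp (4 * (m : ℝ)) = Real.exp (2 * m) * Real.exp (2 * m) := by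
      rw [← Real.exp_add]; ring_nf
    rw [h1] at hε
    have h2 : (8 * (m : ℝ) ^ 2) ^ m * (ε * (32 * m ^ 4 * Real.exp (2 * m)) / κ *
        Real.exp (2 * m)) = (ε * ((8 * m ^ 2) ^ (m + 2) *
          (Real.exp (2 * m) * Real.exp (2 * m)))) / (2 * κ) := by
      rw [pow_add]
      field_simp
      ring
    rw [h2, div_le_div_iff₀ (by positivity) (by norm_num)]
    linarith
  have ha1 : a ≤ 1 := by
    have h1 : (1 : ℝ) ≤ (8 * (m : ℝ) ^ 2) ^ m := by
      have : (1 : ℝ) ≤ m := by exact_mod_cast hm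
      exact one_le_pow₀ (by nlinarith)
    have h2 : (1 : ℝ) ≤ Real.exp (2 * m) := Real.one_le_exp (by positivity)
    have h3 : a ≤ a * Real.exp (2 * m) := le_mul_of_one_le_right ha0 h2
    have h4 : a * Real.exp (2 * m) ≤ (8 * (m : ℝ) ^ 2) ^ m * (a * Real.exp (2 * m)) :=
      le_mul_of_one_le_left (by positivity) h1
    linarith
  -- the bad terms
  have hbad : ∀ s : Fin m → Fin n ⊕ (Ix m × Ix m), (∃ b p, s b = Sum.inr p) →
      -(a * (Real.exp (2 * m) * SQ ν)) ≤
        (∏ b, wt ε (s b)) * PF (fun b => rho ν (s b)) ^ 2 := by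
    rintro s ⟨b0, p, hb0⟩
    have h1 : |∏ b, wt ε (s b)| = (∏ b, Sum.elim (fun _ => (1 : ℝ)) (fun _ => a) (s b)) *
        (∏ b, Sum.elim (fun _ => (1 : ℝ)) (fun _ => d) (s b)) ^ 2 := by
      rw [Finset.abs_prod, ← Finset.prod_pow, ← Finset.prod_mul_distrib]
      refine Finset.prod_congr rfl fun b _ => ?_
      rcases s b with c | c
      · simp [wt]
      · simp only [wt, Sum.elim_inr]
        rw [abs_neg, abs_of_nonneg (by positivity), ha]
        field_simp
    have h2 : (∏ b, Sum.elim (fun _ => (1 : ℝ)) (fun _ => a) (s b)) ≤ a := by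
      rw [← Finset.mul_prod_erase _ _ (Finset.mem_univ b0), hb0]
      refine mul_le_of_le_one_right ha0 ?_
      refine Finset.prod_le_one (fun b _ => ?_) (fun b _ => ?_)
      · rcases s b with c | c
        · exact zero_le_one
        · exact ha0
      · rcases s b with c | c
        · exact le_rfl
        · exact ha1
    have h3 : |(∏ b, wt ε (s b)) * PF (fun b => rho ν (s b)) ^ 2| ≤
        a * (Real.exp (2 * m) * SQ ν) := by
      rw [abs_mul, abs_of_nonneg (sq_nonneg (PF _)), h1, mul_assoc]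
      refine mul_le_mul h2 (hmix s) ?_ ha0
      exact mul_nonneg (sq_nonneg _) (sq_nonneg _)
    exact (abs_le.1 h3).1
  -- split the sum
  rw [← Finset.sum_filter_add_sum_filter_not univ (fun s : Fin m → Fin n ⊕ (Ix m × Ix m) =>
    ∃ b p, s b = Sum.inr p)]
  have h5 : ∑ s ∈ univ.filter (fun s : Fin m → Fin n ⊕ (Ix m × Ix m) =>
      ¬ ∃ b p, s b = Sum.inr p), (∏ b, wt ε (s b)) * PF (fun b => rho ν (s b)) ^ 2 = SQ ν := by
    unfold SQ
    symm
    refine Finset.sum_bij (fun (s : Fin m → Fin n) _ => fun b => Sum.inl (s b)) ?_ ?_ ?_ ?_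
    · intro s _
      rw [Finset.mem_filter]
      refine ⟨Finset.mem_univ _, ?_⟩
      rintro ⟨b, p, h⟩
      exact Sum.inl_ne_inr h
    · intro s _ s' _ h
      funext b
      exact Sum.inl_injective (congrFun h b)
    · intro s hs'
      rw [Finset.mem_filter] at hs'
      have h6 : ∀ b, ∃ c, s b = Sum.inl c := by
        intro b
        rcases h : s b with c | p
        · exact ⟨c, rfl⟩
        · exact absurd ⟨b, p, h⟩ hs'.2
      choose c hc using h6
      exact ⟨c, Finset.mem_univ _, funext fun b => (hc b).symm⟩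
    · intro s _
      have h7 : ∏ b : Fin m, wt (m := m) (n := n) ε (Sum.inl (s b)) = 1 :=
        Finset.prod_eq_one fun b _ => rfl
      rw [h7, one_mul]
      rfl
  have h8 : -((8 * (m : ℝ) ^ 2) ^ m * (a * (Real.exp (2 * m) * SQ ν))) ≤
      ∑ s ∈ univ.filter (fun s : Fin m → Fin n ⊕ (Ix m × Ix m) =>
      ∃ b p, s b = Sum.inr p), (∏ b, wt ε (s b)) * PF (fun b => rho ν (s b)) ^ 2 := by
    have h9 : ∀ s ∈ univ.filter (fun s : Fin m → Fin n ⊕ (Ix m × Ix m) =>
      ∃ b p, s b = Sum.inr p), -(a * (Real.exp (2 * m) * SQ ν)) ≤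
        (∏ b, wt ε (s b)) * PF (fun b => rho ν (s b)) ^ 2 :=
      fun s hs' => hbad s (Finset.mem_filter.1 hs').2
    refine le_trans ?_ (Finset.card_nsmul_le_sum _ _ _ h9)
    rw [nsmul_eq_mul, mul_neg, neg_le_neg_iff, ← hcard]
    refine mul_le_mul_of_nonneg_right ?_ ?_
    · have := Finset.card_filter_le (univ : Finset (Fin m → Fin n ⊕ (Ix m × Ix m)))
        (fun s => ∃ b p, s b = Sum.inr p)
      rw [Finset.card_univ] at this
      exact_mod_cast this
    · exact mul_nonneg ha0 (mul_nonneg (Real.exp_pos _).le (SQ_nonneg ν))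
  rw [h5]
  have h10 : (8 * (m : ℝ) ^ 2) ^ m * (a * (Real.exp (2 * m) * SQ ν)) ≤ 1 / 2 * SQ ν := by
    have := mul_le_mul_of_nonneg_right habound (SQ_nonneg ν)
    calc (8 * (m : ℝ) ^ 2) ^ m * (a * (Real.exp (2 * m) * SQ ν)) =
        (8 * (m : ℝ) ^ 2) ^ m * (a * Real.exp (2 * m)) * SQ ν := by ring
      _ ≤ _ := this
  linarith

section

variable {V : Type} [NormedAddCommGroup V] [InnerProductSpace ℝ V] {m : ℕ}

/-- the universal constant -/
noncomputable def epsm (m : ℕ) : ℝ := 1 / ((8 * m ^ 2) ^ (m + 2) * Real.exp (4 * m))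

/-- **The pointwise inequality with a small positive part of the curvature operator.** -/
theorem point_eps (hm : 1 ≤ m) (e : OrthonormalBasis (Ix m) ℝ V) {R : V → V → V → V → ℝ}
    (hR : AlgCurv R) {κ : ℝ} (hκ : 0 ≤ κ) (hO : OpLe R (epsm m * κ))
    (hs : ∀ x y : V, ‖x‖ = 1 → ‖y‖ = 1 → inner ℝ x y = 0 → R x y x y ≤ -κ) :
    κ ^ m ≤ 2 * (Real.exp (m * (m + 1)) * cc m * ((-1) ^ m * gbc e R)) := by
  have hm0 : (0 : ℝ) < m := by exact_mod_cast hm
  set ε := epsm m * κ with hε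
  have hO' := opLe_shift hO
  have hR' := Pool.Agent.TH598.GV.shift_curv hR (-ε)
  have he0 : 0 ≤ ε := by
    rw [hε]
    refine mul_nonneg ?_ hκ
    unfold epsm
    positivity
  rcases hκ.eq_or_lt with h0 | h0
  · -- `κ = 0`
    have h1 : OpNonpos R := by
      intro n x y
      have h2 := hO n x y
      rw [hε, ← h0, mul_zero, zero_mul] at h2
      exact h2
    have h2 := sign_nonneg e hR h1
    have h3 : κ ^ m = 0 := by rw [← h0]; exact zero_pow (by omega)
    rw [h3]
    have := cc_pos m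
    have := Real.exp_pos ((m : ℝ) * (m + 1))
    positivity
  obtain ⟨ν, hν, h⟩ := squares_card e hR' hO'
  have hsec : ∀ v w : EE m, ‖v‖ = 1 → ‖w‖ = 1 → inner ℝ v w = 0 →
      κ ≤ ∑ a, bf (ν a) v w ^ 2 := by
    refine fun v w hv hw hvw => sec_coord e hR' h (fun x y hx hy hxy => ?_) v w hv hw hvw
    have h1 := hs x y hx hy hxy
    simp only [Pool.Agent.TH598.GV.shiftT]
    rw [real_inner_self_eq_norm_sq, real_inner_self_eq_norm_sq, hxy, hx, hy]
    nlinarith
  have h1 := SQ_large hν hκ hsec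
  have hεle : ε * ((8 * m ^ 2) ^ (m + 2) * Real.exp (4 * m)) ≤ κ := by
    rw [hε]
    unfold epsm
    have h2 : ((8 * (m : ℝ) ^ 2) ^ (m + 2) * Real.exp (4 * m)) ≠ 0 := by positivity
    rw [mul_assoc, mul_comm κ, ← mul_assoc, one_div_mul_cancel h2, one_mul]
  have h2 := weighted hm rfl hν h0 he0 hεle hsec
  have h3 : cc m * ((-1) ^ m * gbc e R) =
      ∑ s : Fin m → Fin (Fintype.card (Ix m × Ix m)) ⊕ (Ix m × Ix m),
      (∏ b, wt ε (s b)) * PF (fun b => rho ν (s b)) ^ 2 := by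
    classical
    rw [gbc_double, ← WSQ_eq (wt ε) (rho ν)]
    refine Finset.sum_congr rfl fun σ _ => Finset.sum_congr rfl fun τ _ => ?_
    congr 1
    refine Finset.prod_congr rfl fun b _ => ?_
    have h4 : ∀ i j k l : Ix m, -R (e i) (e j) (e k) (e l) =
        ∑ c, wt ε c * (rho ν c i j * rho ν c k l) := by
      intro i j k l
      rw [Fintype.sum_sum_type]
      simp only [wt, rho, Sum.elim_inl, Sum.elim_inr, one_mul]
      rw [← Finset.mul_sum, unit_squares, ← h]
      simp only [Pool.Agent.TH598.GV.shiftT, unitCurv, e.inner_eq_ite]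
      ring
    exact h4 _ _ _ _
  have h5 : SQ ν / 2 ≤ cc m * ((-1) ^ m * gbc e R) := by rw [h3]; exact h2
  have h6 := Real.exp_pos ((m : ℝ) * (m + 1))
  calc κ ^ m ≤ Real.exp (m * (m + 1)) * SQ ν := h1
    _ = 2 * (Real.exp (m * (m + 1)) * (SQ ν / 2)) := by ring
    _ ≤ 2 * (Real.exp (m * (m + 1)) * (cc m * ((-1) ^ m * gbc e R))) := by
      refine mul_le_mul_of_nonneg_left (mul_le_mul_of_nonneg_left h5 h6.le) (by norm_num)
    _ = _ := by ring

end

end Pool.Agent.H17.NO
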