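import Pool.Agent.H17.NO.Eps

/-!
# Integrated forms
-/

set_option autoImplicit false

namespace Pool.Agent.H17.NO

open Finset Pool.Agent.W666.GB Pool.Agent.W669.HD Module MeasureTheory

/-- All sectional curvatures of `R` are at most `b`. -/
def SecLe {V : Type} [NormedAddCommGroup V] [InnerProductSpace ℝ V] (R : V → V → V → V → ℝ)
    (b : ℝ) : Prop :=
  ∀ x y : V, ‖x‖ = 1 → ‖y‖ = 1 → inner ℝ x y = 0 → R x y x y ≤ b

/-- The plane spanned by the orthonormal vectors `x`, `y` is flat. -/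
def HasFlatPlane {V : Type} [NormedAddCommGroup V] [InnerProductSpace ℝ V]
    (R : V → V → V → V → ℝ) : Prop :=
  ∃ x y : V, ‖x‖ = 1 ∧ ‖y‖ = 1 ∧ inner ℝ x y = 0 ∧ R x y x y = 0

/-- The constant of the inequality. -/
noncomputable def bnd (m : ℕ) : ℝ := (8 * Real.pi) ^ m * m.factorial * Real.exp (m * (m + 1))

theorem bnd_pos (m : ℕ) : 0 < bnd m := by
  have := Real.pi_pos
  unfold bnd
  positivity

theorem bnd_eq (m : ℕ) : Real.exp (m * (m + 1)) * cc m = bnd m := by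
  unfold bnd cc
  ring

section

variable {V : Type} [NormedAddCommGroup V] [InnerProductSpace ℝ V] {m : ℕ}

theorem op_sec {R : V → V → V → V → ℝ} (hO : OpNonpos R) (x y : V) : R x y x y ≤ 0 := by
  have := hO 1 (fun _ => x) (fun _ => y)
  simpa using this

theorem flat_of_zero (e : OrthonormalBasis (Ix m) ℝ V) {R : V → V → V → V → ℝ} (hR : AlgCurv R)
    (hO : OpNonpos R) (h0 : gbc e R = 0) : HasFlatPlane R := by
  by_contra hc
  have h1 : ∀ x y : V, ‖x‖ = 1 → ‖y‖ = 1 → inner ℝ x y = 0 → R x y x y < 0 := by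
    intro x y hx hy hxy
    refine lt_of_le_of_ne (op_sec hO x y) fun h => hc ⟨x, y, hx, hy, hxy, h⟩
  have h2 := point_strict e hR hO h1
  rw [h0, mul_zero] at h2
  exact lt_irrefl _ h2

theorem crit (e : OrthonormalBasis (Ix m) ℝ V) {R : V → V → V → V → ℝ} (hR : AlgCurv R)
    (hO : OpNonpos R) :
    gbc e R = 0 ↔ ∀ (k : ℕ) (x y : Fin k → V), ¬ Nondeg (curvForm R x y) := by
  rw [← not_iff_not, ← ne_eq, gbc_ne_iff e hR hO]
  push Not
  rfl

end

variable {m : ℕ} {M : Type} [MeasurableSpace M]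

theorem field_eps (hm : 1 ≤ m) (μ : Measure M) (K : CurvField m M) (κ : M → ℝ)
    (h : ∀ p, 0 ≤ κ p ∧ SecLe (K.R p) (-κ p) ∧ OpLe (K.R p) (epsm m * κ p)) :
    0 ≤ (-1) ^ m * ∫ p, K.gb p ∂μ ∧
    (Integrable K.gb μ → ∫ p, κ p ^ m ∂μ ≤ 2 * bnd m * ((-1) ^ m * ∫ p, K.gb p ∂μ)) ∧
    (Integrable K.gb μ → μ {p | 0 < κ p} ≠ 0 → 0 < (-1) ^ m * ∫ p, K.gb p ∂μ) := by
  have h0 : ∀ p, κ p ^ m ≤ 2 * bnd m * ((-1) ^ m * K.gb p) := by
    intro p
    obtain ⟨h1, h2, h3⟩ := h p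
    have := point_eps hm (K.e p) (K.curv p) h1 h3 h2
    rw [bnd_eq] at this
    refine this.trans (le_of_eq ?_)
    unfold CurvField.gb
    ring
  have hb : 0 < 2 * bnd m := by have := bnd_pos m; positivity
  have h1 : ∀ p, 0 ≤ (-1) ^ m * K.gb p := fun p =>
    nonneg_of_mul_nonneg_right ((pow_nonneg (h p).1 m).trans (h0 p)) hb
  have h2 : 0 ≤ (-1) ^ m * ∫ p, K.gb p ∂μ := by
    rw [← integral_const_mul]
    exact integral_nonneg h1
  refine ⟨h2, fun hi => ?_, fun hi hμ => ?_⟩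
  · by_cases hκ : Integrable (fun p => κ p ^ m) μ
    · rw [← integral_const_mul, ← integral_const_mul]
      exact integral_mono hκ ((hi.const_mul _).const_mul _) h0
    · rw [integral_undef hκ]
      exact mul_nonneg hb.le h2
  · rw [← integral_const_mul, integral_pos_iff_support_of_nonneg h1 (hi.const_mul _)]
    refine lt_of_lt_of_le (pos_iff_ne_zero.2 hμ) (measure_mono ?_)
    intro p hp
    have h3 : 0 < κ p ^ m := pow_pos hp m
    have h4 := h3.trans_le (h0 p)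
    exact ((mul_pos_iff_of_pos_left hb).1 h4).ne'

theorem field_crit (μ : Measure M) (K : CurvField m M) (h : ∀ p, OpNonpos (K.R p))
    (hi : Integrable K.gb μ) :
    (∫ p, K.gb p ∂μ = 0 ↔
      ∀ᵐ p ∂μ, ∀ (k : ℕ) (x y : Fin k → K.V p), ¬ Nondeg (curvForm (K.R p) x y)) ∧
    (∫ p, K.gb p ∂μ = 0 → ∀ᵐ p ∂μ, HasFlatPlane (K.R p)) := by
  have h1 : ∀ p, 0 ≤ (-1) ^ m * K.gb p := fun p => sign_nonneg (K.e p) (K.curv p) (h p)
  have hm : ((-1 : ℝ) ^ m) ≠ 0 := pow_ne_zero _ (by norm_num)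
  have h2 : ∫ p, K.gb p ∂μ = 0 ↔ ∀ᵐ p ∂μ, K.gb p = 0 := by
    have h3 := integral_eq_zero_iff_of_nonneg (μ := μ) (f := fun p => (-1) ^ m * K.gb p)
      h1 (hi.const_mul _)
    rw [integral_const_mul, mul_eq_zero, or_iff_right hm] at h3
    rw [h3]
    constructor
    · intro h4
      filter_upwards [h4] with p hp
      exact (mul_eq_zero.1 hp).resolve_left hm
    · intro h4
      filter_upwards [h4] with p hp
      show (-1) ^ m * K.gb p = 0
      rw [hp, mul_zero]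
  constructor
  · rw [h2]
    constructor
    · intro h4
      filter_upwards [h4] with p hp
      exact (crit (K.e p) (K.curv p) (h p)).1 hp
    · intro h4
      filter_upwards [h4] with p hp
      exact (crit (K.e p) (K.curv p) (h p)).2 hp
  · intro h3
    filter_upwards [h2.1 h3] with p hp
    exact flat_of_zero (K.e p) (K.curv p) (h p) hp

end Pool.Agent.H17.NO
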