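import Pool.Agent.H17.NO.Pol
import Pool.Graph.R_seed8.W666.GB.Had

/-!
# Large Pfaffians in a family of two-forms
-/

set_option autoImplicit false

namespace Pool.Agent.H17.NO

open Finset Pool.Agent.W666.GB Module

/-- Euclidean space of dimension `2 m` -/
abbrev EE (m : ℕ) : Type := EuclideanSpace ℝ (Ix m)

/-- the value of a matrix on two vectors -/
noncomputable def bf {m : ℕ} (N : Ix m → Ix m → ℝ) (v w : EE m) : ℝ :=
  ∑ i, ∑ j, N i j * (v i * w j)

/-- the matrix with coordinates `x` -/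
noncomputable def om {m n : ℕ} (ν : Fin n → Ix m → Ix m → ℝ) (x : EuclideanSpace ℝ (Fin n))
    (i j : Ix m) : ℝ := ∑ a, x a * ν a i j

/-- the Pfaffian of the form with coordinates `x` on the frame `u` -/
noncomputable def Fr {m n : ℕ} (ν : Fin n → Ix m → Ix m → ℝ) (r : ℕ)
    (x : EuclideanSpace ℝ (Fin n)) (u : Ix r → EE m) : ℝ :=
  PF (fun _ : Fin r => fun i j => bf (om ν x) (u i) (u j))

section basic

variable {m n : ℕ}

theorem bf_add_left (N : Ix m → Ix m → ℝ) (v v' w : EE m) :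
    bf N (v + v') w = bf N v w + bf N v' w := by
  simp only [bf, ← Finset.sum_add_distrib]
  refine Finset.sum_congr rfl fun i _ => Finset.sum_congr rfl fun j _ => ?_
  rw [PiLp.add_apply]; ring

theorem bf_smul_left (N : Ix m → Ix m → ℝ) (c : ℝ) (v w : EE m) :
    bf N (c • v) w = c * bf N v w := by
  simp only [bf, Finset.mul_sum]
  refine Finset.sum_congr rfl fun i _ => Finset.sum_congr rfl fun j _ => ?_
  rw [PiLp.smul_apply, smul_eq_mul]; ring

theorem bf_anti {N : Ix m → Ix m → ℝ} (hN : ∀ i j, N j i = - N i j) (v w : EE m) :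
    bf N w v = - bf N v w := by
  simp only [bf, ← Finset.sum_neg_distrib]
  rw [Finset.sum_comm]
  refine Finset.sum_congr rfl fun i _ => Finset.sum_congr rfl fun j _ => ?_
  rw [hN]; ring

theorem bf_add_right (N : Ix m → Ix m → ℝ) (v w w' : EE m) :
    bf N v (w + w') = bf N v w + bf N v w' := by
  simp only [bf, ← Finset.sum_add_distrib]
  refine Finset.sum_congr rfl fun i _ => Finset.sum_congr rfl fun j _ => ?_
  rw [PiLp.add_apply]; ring

theorem bf_smul_right (N : Ix m → Ix m → ℝ) (c : ℝ) (v w : EE m) :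
    bf N v (c • w) = c * bf N v w := by
  simp only [bf, Finset.mul_sum]
  refine Finset.sum_congr rfl fun i _ => Finset.sum_congr rfl fun j _ => ?_
  rw [PiLp.smul_apply, smul_eq_mul]; ring

theorem om_anti {ν : Fin n → Ix m → Ix m → ℝ} (hν : ∀ a i j, ν a j i = - ν a i j)
    (x : EuclideanSpace ℝ (Fin n)) (i j : Ix m) : om ν x j i = - om ν x i j := by
  simp only [om, ← Finset.sum_neg_distrib]
  refine Finset.sum_congr rfl fun a _ => ?_
  rw [hν]; ring

theorem bf_lin {ι : Type} [Fintype ι] (c : ι → ℝ) (N : ι → Ix m → Ix m → ℝ) (v w : EE m) :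
    bf (fun i j => ∑ a, c a * N a i j) v w = ∑ a, c a * bf (N a) v w := by
  simp only [bf, Finset.sum_mul, Finset.mul_sum]
  have h1 : ∀ i : Ix m, ∑ j : Ix m, ∑ a, c a * N a i j * (v i * w j) =
      ∑ a, ∑ j : Ix m, c a * N a i j * (v i * w j) := fun i => Finset.sum_comm
  rw [Finset.sum_congr rfl fun i _ => h1 i, Finset.sum_comm]
  refine Finset.sum_congr rfl fun a _ => Finset.sum_congr rfl fun i _ =>
    Finset.sum_congr rfl fun j _ => by ring

theorem continuous_bf (ν : Fin n → Ix m → Ix m → ℝ) {r : ℕ} (i j : Ix r) :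
    Continuous fun p : EuclideanSpace ℝ (Fin n) × (Ix r → EE m) =>
      bf (om ν p.1) (p.2 i) (p.2 j) := by
  unfold bf om
  refine continuous_finsetSum _ fun a _ => continuous_finsetSum _ fun b _ => ?_
  refine Continuous.mul ?_ (Continuous.mul ?_ ?_)
  · refine continuous_finsetSum _ fun c _ => Continuous.mul ?_ continuous_const
    exact (EuclideanSpace.proj (𝕜 := ℝ) c).continuous.comp continuous_fst
  · exact (EuclideanSpace.proj (𝕜 := ℝ) a).continuous.comp
      ((continuous_apply i).comp continuous_snd)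
  · exact (EuclideanSpace.proj (𝕜 := ℝ) b).continuous.comp
      ((continuous_apply j).comp continuous_snd)

theorem continuous_Fr (ν : Fin n → Ix m → Ix m → ℝ) (r : ℕ) :
    Continuous fun p : EuclideanSpace ℝ (Fin n) × (Ix r → EE m) => Fr ν r p.1 p.2 := by
  unfold Fr PF
  refine continuous_finsetSum _ fun σ _ => Continuous.mul continuous_const ?_
  exact continuous_finsetProd _ fun b _ => continuous_bf ν _ _

/-- the maximum over the unit balls -/
theorem exists_max (ν : Fin n → Ix m → Ix m → ℝ) (r : ℕ) :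
    ∃ (x : EuclideanSpace ℝ (Fin n)) (u : Ix r → EE m), ‖x‖ ≤ 1 ∧ (∀ j, ‖u j‖ ≤ 1) ∧
      ∀ (x' : EuclideanSpace ℝ (Fin n)) (u' : Ix r → EE m), ‖x'‖ ≤ 1 → (∀ j, ‖u' j‖ ≤ 1) →
        |Fr ν r x' u'| ≤ |Fr ν r x u| := by
  have hK : IsCompact ((Metric.closedBall (0 : EuclideanSpace ℝ (Fin n)) 1) ×ˢ
      (Set.pi Set.univ fun _ : Ix r => Metric.closedBall (0 : EE m) 1)) :=
    (isCompact_closedBall _ _).prod (isCompact_univ_pi fun _ => isCompact_closedBall _ _)
  have hne : ((Metric.closedBall (0 : EuclideanSpace ℝ (Fin n)) 1) ×ˢ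
      (Set.pi Set.univ fun _ : Ix r => Metric.closedBall (0 : EE m) 1)).Nonempty :=
    ⟨(0, fun _ => 0), Metric.mem_closedBall_self zero_le_one,
      fun _ _ => Metric.mem_closedBall_self zero_le_one⟩
  have hc : ContinuousOn (fun p : EuclideanSpace ℝ (Fin n) × (Ix r → EE m) =>
      |Fr ν r p.1 p.2|) ((Metric.closedBall (0 : EuclideanSpace ℝ (Fin n)) 1) ×ˢ
      (Set.pi Set.univ fun _ : Ix r => Metric.closedBall (0 : EE m) 1)) :=
    (continuous_Fr ν r).abs.continuousOn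
  obtain ⟨⟨x, u⟩, hp, hmax⟩ := hK.exists_isMaxOn hne hc
  rw [isMaxOn_iff] at hmax
  obtain ⟨hp1, hp2⟩ := Set.mem_prod.1 hp
  refine ⟨x, u, mem_closedBall_zero_iff.1 hp1,
    fun j => mem_closedBall_zero_iff.1 (Set.mem_univ_pi.1 hp2 j), fun x' u' hx' hu' => ?_⟩
  exact hmax (x', u') (Set.mem_prod.2 ⟨mem_closedBall_zero_iff.2 hx',
    Set.mem_univ_pi.2 fun j => mem_closedBall_zero_iff.2 (hu' j)⟩)

/-- the mixed Pfaffians are bounded by the pure ones -/
theorem mixed_le (ν : Fin n → Ix m → Ix m → ℝ) {k : ℕ} (u : Ix k → EE m) {Q : ℝ}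
    (hQ : ∀ x : EuclideanSpace ℝ (Fin n), ‖x‖ ≤ 1 → |Fr ν k x u| ≤ Q)
    (X : Fin k → EuclideanSpace ℝ (Fin n)) (hX : ∀ b, ‖X b‖ ≤ 1) :
    |PF (fun b i j => bf (om ν (X b)) (u i) (u j))| ≤ Real.exp k * Q := by
  have hQ0 : 0 ≤ Q := (abs_nonneg _).trans (hQ 0 (by simp))
  have hf : (0 : ℝ) < (k.factorial : ℝ) := by exact_mod_cast k.factorial_pos
  have key : |(k.factorial : ℝ) * PF (fun b i j => bf (om ν (X b)) (u i) (u j))| ≤
      (k : ℝ) ^ k * Q := by
    rw [polarise]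
    refine (abs_av_le _).trans (av_le_const fun s => ?_)
    have hs : |∏ a, sg (s a)| = 1 := by
      rw [Finset.abs_prod]
      refine Finset.prod_eq_one fun a _ => ?_
      cases s a <;> simp
    rw [abs_mul, hs, one_mul]
    rcases Nat.eq_zero_or_pos k with h0 | h0
    · subst h0
      have h1 := hQ 0 (by simp)
      rw [pow_zero, one_mul]
      refine le_trans (le_of_eq ?_) h1
      unfold Fr PF
      simp
    have hk : (0 : ℝ) < k := by exact_mod_cast h0
    set y : EuclideanSpace ℝ (Fin n) := (k : ℝ)⁻¹ • ∑ a, sg (s a) • X a with hy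
    have hyn : ‖y‖ ≤ 1 := by
      rw [hy, norm_smul, norm_inv, Real.norm_natCast]
      have h2 : ‖∑ a, sg (s a) • X a‖ ≤ k := by
        refine (norm_sum_le _ _).trans ?_
        have h3 : ∀ a ∈ (univ : Finset (Fin k)), ‖sg (s a) • X a‖ ≤ 1 := by
          intro a _
          rw [norm_smul]
          have : ‖sg (s a)‖ = 1 := by cases s a <;> simp
          rw [this, one_mul]
          exact hX a
        refine (Finset.sum_le_card_nsmul _ _ _ h3).trans (le_of_eq ?_)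
        simp
      calc (k : ℝ)⁻¹ * ‖∑ a, sg (s a) • X a‖ ≤ (k : ℝ)⁻¹ * k :=
            mul_le_mul_of_nonneg_left h2 (by positivity)
        _ = 1 := inv_mul_cancel₀ hk.ne'
    have h4 : (fun i j : Ix k => ∑ a, sg (s a) * bf (om ν (X a)) (u i) (u j)) =
        fun i j => (k : ℝ) * bf (om ν y) (u i) (u j) := by
      funext i j
      have h5 : (om ν y) = fun i' j' => ∑ a, ((k : ℝ)⁻¹ * sg (s a)) * om ν (X a) i' j' := by
        funext i' j'
        simp only [om, hy, Finset.mul_sum]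
        rw [Finset.sum_comm]
        refine Finset.sum_congr rfl fun c _ => ?_
        rw [PiLp.smul_apply, WithLp.ofLp_sum, Finset.sum_apply, smul_eq_mul, Finset.mul_sum,
          Finset.sum_mul]
        refine Finset.sum_congr rfl fun a _ => ?_
        rw [PiLp.smul_apply, smul_eq_mul]
        ring
      rw [h5, bf_lin, Finset.mul_sum]
      refine Finset.sum_congr rfl fun a _ => ?_
      field_simp
    have h6 := PF_smul (k : ℝ) (fun i j : Ix k => bf (om ν y) (u i) (u j))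
    rw [h4, h6, abs_mul, abs_of_nonneg (by positivity)]
    exact mul_le_mul_of_nonneg_left (hQ y hyn) (by positivity)
  rw [abs_mul, abs_of_pos hf] at key
  have h7 : (k : ℝ) ^ k / (k.factorial : ℝ) ≤ Real.exp k :=
    Real.pow_div_factorial_le_exp (k : ℝ) (Nat.cast_nonneg k) k
  calc |PF (fun b i j => bf (om ν (X b)) (u i) (u j))|
      ≤ (k : ℝ) ^ k * Q / (k.factorial : ℝ) := by rw [le_div_iff₀ hf, mul_comm]; exact key
    _ = (k : ℝ) ^ k / (k.factorial : ℝ) * Q := by ring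
    _ ≤ Real.exp k * Q := mul_le_mul_of_nonneg_right h7 hQ0

/-- two orthonormal vectors in the kernel of fewer than `2 m - 1` functionals `bf N · (u j)` -/
theorem exists_kernel (N : Ix m → Ix m → ℝ) {r : ℕ} (hr : r < m) (u : Ix r → EE m) :
    ∃ v w : EE m, ‖v‖ = 1 ∧ ‖w‖ = 1 ∧ inner ℝ v w = 0 ∧ (∀ j, bf N v (u j) = 0) ∧
      ∀ j, bf N w (u j) = 0 := by
  let L : EE m →ₗ[ℝ] (Ix r → ℝ) :=
    { toFun := fun v j => bf N v (u j)
      map_add' := fun v v' => funext fun j => bf_add_left N v v' (u j)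
      map_smul' := fun c v => funext fun j => bf_smul_left N c v (u j) }
  have h1 := LinearMap.finrank_range_add_finrank_ker L
  have h2 : finrank ℝ (LinearMap.range L) ≤ 2 * r := by
    refine (Submodule.finrank_le _).trans (le_of_eq ?_)
    rw [Module.finrank_fintype_fun_eq_card, Fintype.card_prod, Fintype.card_fin,
      Fintype.card_bool, mul_comm]
  have h3 : finrank ℝ (EE m) = 2 * m := by
    rw [finrank_euclideanSpace, Fintype.card_prod, Fintype.card_fin, Fintype.card_bool, mul_comm]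
  have h4 : 2 ≤ finrank ℝ (LinearMap.ker L) := by omega
  let b := stdOrthonormalBasis ℝ (LinearMap.ker L)
  let i0 : Fin (finrank ℝ (LinearMap.ker L)) := ⟨0, by omega⟩
  let i1 : Fin (finrank ℝ (LinearMap.ker L)) := ⟨1, by omega⟩
  have hi : i0 ≠ i1 := by
    intro h
    have := congrArg Fin.val h
    simp [i0, i1] at this
  refine ⟨(b i0 : EE m), (b i1 : EE m), ?_, ?_, ?_, fun j => ?_, fun j => ?_⟩
  · exact b.orthonormal.1 i0
  · exact b.orthonormal.1 i1
  · exact b.orthonormal.2 hi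
  · exact congrFun (LinearMap.mem_ker.1 (b i0).2) j
  · exact congrFun (LinearMap.mem_ker.1 (b i1).2) j

/-- the frame `(v, w, u)` -/
def ext {r : ℕ} (v w : EE m) (u : Ix r → EE m) (i : Ix (r + 1)) : EE m :=
  Fin.cases (motive := fun _ => EE m) (if i.2 then w else v) (fun j => u (j, i.2)) i.1

theorem ext_e0 {r : ℕ} (v w : EE m) (u : Ix r → EE m) : ext v w u e0 = v := rfl

theorem ext_e1 {r : ℕ} (v w : EE m) (u : Ix r → EE m) : ext v w u e1 = w := rfl

theorem ext_em {r : ℕ} (v w : EE m) (u : Ix r → EE m) (j : Ix r) : ext v w u (em j) = u j := rfl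

/-- the expansion for a family of forms which vanish on `v, u j` and `w, u j` except for one -/
theorem Fr_ext {ν : Fin n → Ix m → Ix m → ℝ} (hν : ∀ a i j, ν a j i = - ν a i j) {r : ℕ}
    (X : Fin (r + 1) → EuclideanSpace ℝ (Fin n)) (x : EuclideanSpace ℝ (Fin n))
    (hX : ∀ b, b ≠ 0 → X b = x) (v w : EE m) (u : Ix r → EE m)
    (hv : ∀ j, bf (om ν x) v (u j) = 0) (hw : ∀ j, bf (om ν x) w (u j) = 0) :
    PF (fun b i j => bf (om ν (X b)) (ext v w u i) (ext v w u j)) =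
      2 * ∑ b, bf (om ν (X b)) v w *
        PF (fun c i j => bf (om ν (X (b.succAbove c))) (u i) (u j)) := by
  rw [laplace]
  · rfl
  · intro b i j
    exact bf_anti (om_anti hν _) _ _
  · intro b b' hb i j
    rw [ext_e0, ext_e1, ext_em, ext_em]
    by_cases h0 : b = 0
    · have h1 : b' ≠ 0 := fun h => hb (h0.trans h.symm)
      rw [hX b' h1, hw, mul_zero]
    · rw [hX b h0, hv, zero_mul]

/-- **The induction step.** -/
theorem step {ν : Fin n → Ix m → Ix m → ℝ} (hν : ∀ a i j, ν a j i = - ν a i j) {δ : ℝ}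
    (hδ : ∀ v w : EE m, ‖v‖ = 1 → ‖w‖ = 1 → inner ℝ v w = 0 →
      ∃ y : EuclideanSpace ℝ (Fin n), ‖y‖ ≤ 1 ∧ δ ≤ bf (om ν y) v w)
    {r : ℕ} (hr : r < m) {x : EuclideanSpace ℝ (Fin n)} {u : Ix r → EE m} (hx : ‖x‖ ≤ 1)
    (hu : ∀ j, ‖u j‖ ≤ 1)
    (hmax : ∀ (x' : EuclideanSpace ℝ (Fin n)) (u' : Ix r → EE m), ‖x'‖ ≤ 1 →
      (∀ j, ‖u' j‖ ≤ 1) → |Fr ν r x' u'| ≤ |Fr ν r x u|)
    {Q : ℝ} (hQ : ∀ (x' : EuclideanSpace ℝ (Fin n)) (u' : Ix (r + 1) → EE m), ‖x'‖ ≤ 1 →
      (∀ j, ‖u' j‖ ≤ 1) → |Fr ν (r + 1) x' u'| ≤ Q) :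
    δ * |Fr ν r x u| ≤ Real.exp (r + 1) * Q := by
  obtain ⟨v, w, hv1, hw1, hvw, hv, hw⟩ := exists_kernel (om ν x) hr u
  obtain ⟨y, hy, hyd⟩ := hδ v w hv1 hw1 hvw
  have hz : ∀ i, ‖ext v w u i‖ ≤ 1 := by
    intro i
    rcases em_or i with rfl | rfl | ⟨a, rfl⟩
    · rw [ext_e0, hv1]
    · rw [ext_e1, hw1]
    · rw [ext_em]; exact hu a
  have hQ' : ∀ x' : EuclideanSpace ℝ (Fin n), ‖x'‖ ≤ 1 → |Fr ν (r + 1) x' (ext v w u)| ≤ Q :=
    fun x' hx' => hQ x' _ hx' hz
  have hm' : ∀ x' : EuclideanSpace ℝ (Fin n), ‖x'‖ ≤ 1 → |Fr ν r x' u| ≤ |Fr ν r x u| :=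
    fun x' hx' => hmax x' u hx' hu
  set q := |Fr ν r x u| with hq
  have hq0 : 0 ≤ q := abs_nonneg _
  have hQ0 : 0 ≤ Q := (abs_nonneg _).trans (hQ' 0 (by simp))
  set μ := bf (om ν x) v w with hμ
  -- the pure value
  have hpure : 2 * (r + 1) * (|μ| * q) ≤ Q := by
    have h1 := Fr_ext hν (fun _ : Fin (r + 1) => x) x (fun _ _ => rfl) v w u hv hw
    have h2 : Fr ν (r + 1) x (ext v w u) = 2 * (r + 1) * (μ * Fr ν r x u) := by
      unfold Fr
      rw [h1, Finset.sum_const, Finset.card_univ, Fintype.card_fin, nsmul_eq_mul]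
      push_cast
      ring
    have h3 := hQ' x hx
    rw [h2, abs_mul, abs_mul μ, abs_of_nonneg (by positivity : (0 : ℝ) ≤ 2 * (r + 1))] at h3
    exact h3
  -- the mixed value
  let X : Fin (r + 1) → EuclideanSpace ℝ (Fin n) := Fin.cons y (fun _ => x)
  have hXn : ∀ b, ‖X b‖ ≤ 1 := by
    intro b
    refine Fin.cases ?_ (fun c => ?_) b
    · exact hy
    · exact hx
  have hX : ∀ b, b ≠ 0 → X b = x := by
    intro b hb
    obtain ⟨c, rfl⟩ := Fin.exists_succ_eq.2 hb
    rfl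
  have hmix := mixed_le ν (ext v w u) hQ' X hXn
  rw [Fr_ext hν X x hX v w u hv hw, Fin.sum_univ_succ] at hmix
  have h0 : bf (om ν (X 0)) v w * PF (fun c i j => bf (om ν (X ((0 : Fin (r + 1)).succAbove c)))
      (u i) (u j)) = bf (om ν y) v w * Fr ν r x u := rfl
  have hS : |∑ b : Fin r, bf (om ν (X b.succ)) v w *
      PF (fun c i j => bf (om ν (X (b.succ.succAbove c))) (u i) (u j))| ≤
      r * (|μ| * (Real.exp r * q)) := by
    refine (Finset.abs_sum_le_sum_abs _ _).trans ?_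
    have h4 : ∀ b ∈ (univ : Finset (Fin r)), |bf (om ν (X b.succ)) v w *
        PF (fun c i j => bf (om ν (X (b.succ.succAbove c))) (u i) (u j))| ≤
        |μ| * (Real.exp r * q) := by
      intro b _
      rw [abs_mul]
      refine mul_le_mul (le_of_eq rfl) ?_ (abs_nonneg _) (abs_nonneg _)
      exact mixed_le ν u hm' (fun c => X (b.succ.succAbove c)) (fun c => hXn _)
    refine (Finset.sum_le_card_nsmul _ _ _ h4).trans (le_of_eq ?_)
    rw [Finset.card_univ, Fintype.card_fin, nsmul_eq_mul]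
  rw [h0] at hmix
  set S := ∑ b : Fin r, bf (om ν (X b.succ)) v w *
      PF (fun c i j => bf (om ν (X (b.succ.succAbove c))) (u i) (u j)) with hSdef
  have h5 : |bf (om ν y) v w * Fr ν r x u| ≤
      (Real.exp ((r + 1 : ℕ) : ℝ) * Q) / 2 + r * (|μ| * (Real.exp r * q)) := by
    have h6 : |2 * (bf (om ν y) v w * Fr ν r x u + S)| =
        2 * |bf (om ν y) v w * Fr ν r x u + S| := by
      rw [abs_mul, abs_of_pos (by norm_num : (0 : ℝ) < 2)]
    rw [h6] at hmix
    have h7 := abs_sub_abs_le_abs_sub (bf (om ν y) v w * Fr ν r x u) (-S)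
    rw [sub_neg_eq_add, abs_neg] at h7
    linarith
  rw [abs_mul] at h5
  have h8 : δ * q ≤ |bf (om ν y) v w| * q :=
    mul_le_mul_of_nonneg_right (hyd.trans (le_abs_self _)) hq0
  have h9 : r * (|μ| * (Real.exp r * q)) ≤ Real.exp r * (Q / 2) := by
    have : (r : ℝ) * (|μ| * q) ≤ Q / 2 := by
      have : 0 ≤ |μ| * q := by positivity
      nlinarith
    calc r * (|μ| * (Real.exp r * q)) = Real.exp r * (r * (|μ| * q)) := by ring
      _ ≤ _ := mul_le_mul_of_nonneg_left this (Real.exp_pos _).le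
  have h10 : Real.exp (r : ℝ) ≤ Real.exp ((r : ℝ) + 1) := Real.exp_le_exp.2 (by linarith)
  have h11 : Real.exp (r : ℝ) * (Q / 2) ≤ Real.exp ((r : ℝ) + 1) * (Q / 2) :=
    mul_le_mul_of_nonneg_right h10 (by positivity)
  have h12 : ((r + 1 : ℕ) : ℝ) = (r : ℝ) + 1 := by push_cast; ring
  rw [h12] at h5
  linarith

/-- **Large Pfaffians.** -/
theorem exists_large {ν : Fin n → Ix m → Ix m → ℝ} (hν : ∀ a i j, ν a j i = - ν a i j) {δ : ℝ}
    (h0 : 0 ≤ δ)
    (hδ : ∀ v w : EE m, ‖v‖ = 1 → ‖w‖ = 1 → inner ℝ v w = 0 →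
      ∃ y : EuclideanSpace ℝ (Fin n), ‖y‖ ≤ 1 ∧ δ ≤ bf (om ν y) v w) (r : ℕ) (hr : r ≤ m) :
    ∃ (x : EuclideanSpace ℝ (Fin n)) (u : Ix r → EE m), ‖x‖ ≤ 1 ∧ (∀ j, ‖u j‖ ≤ 1) ∧
      δ ^ r ≤ Real.exp (r * (r + 1) / 2) * |Fr ν r x u| := by
  induction r with
  | zero =>
    refine ⟨0, fun _ => 0, by simp, fun _ => by simp, ?_⟩
    have : Fr ν 0 0 (fun _ => 0) = 1 := by
      unfold Fr PF
      simp [sn]
    rw [this]
    simp
  | succ r ih =>
    obtain ⟨x, u, hx, hu, hxu⟩ := ih (by omega)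
    obtain ⟨x0, u0, hx0, hu0, hmax⟩ := exists_max ν r
    obtain ⟨x1, u1, hx1, hu1, hmax1⟩ := exists_max ν (r + 1)
    refine ⟨x1, u1, hx1, hu1, ?_⟩
    have h1 := step hν hδ (by omega) hx0 hu0 hmax hmax1
    have h2 := hmax x u hx hu
    have h3 : δ ^ r ≤ Real.exp (r * (r + 1) / 2) * |Fr ν r x0 u0| :=
      hxu.trans (mul_le_mul_of_nonneg_left h2 (Real.exp_pos _).le)
    calc δ ^ (r + 1) = δ * δ ^ r := by ring
      _ ≤ δ * (Real.exp (r * (r + 1) / 2) * |Fr ν r x0 u0|) :=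
        mul_le_mul_of_nonneg_left h3 h0
      _ = Real.exp (r * (r + 1) / 2) * (δ * |Fr ν r x0 u0|) := by ring
      _ ≤ Real.exp (r * (r + 1) / 2) * (Real.exp (r + 1) * |Fr ν (r + 1) x1 u1|) :=
        mul_le_mul_of_nonneg_left h1 (Real.exp_pos _).le
      _ = Real.exp (((r + 1 : ℕ) : ℝ) * (((r + 1 : ℕ) : ℝ) + 1) / 2) *
          |Fr ν (r + 1) x1 u1| := by
        rw [← mul_assoc, ← Real.exp_add]
        congr 2
        push_cast
        ring

end basic

end Pool.Agent.H17.NO
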