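import Pool.Agent.H17.NO.Curv

/-!
# Nondegenerate forms, and the criterion for the vanishing of the integrand
-/

set_option autoImplicit false

namespace Pool.Agent.H17.NO

open Finset Pool.Agent.W666.GB Pool.Agent.W669.HD Module

section forms

variable {m : ℕ}

theorem bf_zero_right (N : Ix m → Ix m → ℝ) (v : EE m) : bf N v 0 = 0 := by
  simp [bf]

theorem bf_sum_right (N : Ix m → Ix m → ℝ) (v : EE m) {ι : Type} (s : Finset ι) (f : ι → EE m) :
    bf N v (∑ i ∈ s, f i) = ∑ i ∈ s, bf N v (f i) := by
  classical
  induction s using Finset.induction_on with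
  | empty => simp [bf_zero_right]
  | insert a s ha ih => rw [Finset.sum_insert ha, Finset.sum_insert ha, bf_add_right, ih]

/-- a form with a kernel has Pfaffian zero -/
theorem PF_zero_of_kernel {N : Ix m → Ix m → ℝ} (hN : ∀ i j, N j i = - N i j) {v : EE m}
    (hv : v ≠ 0) (hk : ∀ w, bf N v w = 0) : PF (fun _ : Fin m => N) = 0 := by
  classical
  obtain ⟨i0, hi0⟩ : ∃ i, v i ≠ 0 := by
    by_contra hc
    push Not at hc
    exact hv (by ext i; simpa using hc i)
  set f := MultilinearMap.alternatization (ML N) with hf
  set b : Ix m → EE m := fun i => EuclideanSpace.basisFun (Ix m) ℝ i with hb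
  have h1 : f (Function.update b i0 v) = v i0 * f b := by
    have h2 : v = ∑ j, v j • b j := by
      ext i
      rw [WithLp.ofLp_sum, Finset.sum_apply]
      simp [hb]
    conv_lhs => rw [h2]
    rw [AlternatingMap.map_update_sum]
    rw [Finset.sum_eq_single i0]
    · rw [AlternatingMap.map_update_smul, Function.update_eq_self, smul_eq_mul]
    · intro j _ hj
      rw [AlternatingMap.map_update_smul, AlternatingMap.map_update_self _ _ (Ne.symm hj),
        smul_zero]
    · intro h; exact absurd (Finset.mem_univ _) h
  have h3 : f (Function.update b i0 v) = 0 := by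
    rw [hf, ML_alt]
    unfold PF
    refine Finset.sum_eq_zero fun σ _ => ?_
    obtain ⟨⟨c, β⟩, hc⟩ := σ.surjective i0
    rw [Finset.prod_eq_zero (Finset.mem_univ c), mul_zero]
    show bf N (Function.update b i0 v (σ (c, false))) (Function.update b i0 v (σ (c, true))) = 0
    cases β
    · rw [hc, Function.update_self]
      exact hk _
    · rw [hc, Function.update_self, bf_anti hN, hk, neg_zero]
  have h4 : f b = PF (fun _ : Fin m => N) := by
    rw [hf, ML_alt]
    simp only [hb, bf_basis]
  rw [h3, h4] at h1
  rcases mul_eq_zero.1 h1.symm with h | h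
  · exact absurd h hi0
  · exact h

/-- the Pfaffian of `N` on a frame of `2 r` vectors -/
noncomputable def PN (N : Ix m → Ix m → ℝ) (r : ℕ) (u : Ix r → EE m) : ℝ :=
  PF (fun _ : Fin r => fun i j => bf N (u i) (u j))

/-- a nondegenerate form has a nonzero Pfaffian -/
theorem PF_ne_of_nondeg {N : Ix m → Ix m → ℝ} (hN : ∀ i j, N j i = - N i j)
    (hnd : ∀ v : EE m, v ≠ 0 → ∃ w, bf N v w ≠ 0) : PF (fun _ : Fin m => N) ≠ 0 := by
  classical
  by_contra hP
  -- no level has a nonzero Pfaffian followed by a zero one
  have key : ∀ r : ℕ, r ≤ m → ∃ u : Ix r → EE m, PN N r u ≠ 0 := by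
    intro r
    induction r with
    | zero =>
      intro _
      refine ⟨fun _ => 0, ?_⟩
      unfold PN PF
      simp [sn]
    | succ r ih =>
      intro hr
      obtain ⟨u, hu⟩ := ih (by omega)
      by_contra hc
      push Not at hc
      obtain ⟨v, w0, hv1, -, -, hv, -⟩ := exists_kernel N (show r < m by omega) u
      have hv0 : v ≠ 0 := by
        intro h0
        rw [h0, norm_zero] at hv1
        exact zero_ne_one hv1
      obtain ⟨z, hz⟩ := hnd v hv0
      apply hz
      -- decompose `z`
      let M : Ix r → Ix r → ℝ := fun i j => bf N (u i) (u j)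
      have hM : ∀ i j, M j i = - M i j := fun i j => bf_anti hN _ _
      let T : (EE r) →ₗ[ℝ] (Ix r → ℝ) :=
        { toFun := fun c j => ∑ i, c i * M i j
          map_add' := fun c c' => by
            funext j
            simp only [PiLp.add_apply, add_mul, Finset.sum_add_distrib, Pi.add_apply]
          map_smul' := fun t c => by
            funext j
            simp only [PiLp.smul_apply, smul_eq_mul, Pi.smul_apply, RingHom.id_apply,
              Finset.mul_sum, mul_assoc] }
      have hTinj : Function.Injective T := by
        rw [← LinearMap.ker_eq_bot, LinearMap.ker_eq_bot']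
        intro c hc0
        by_contra hne
        apply hu
        have h1 := PF_zero_of_kernel hM hne (fun w => by
          unfold bf
          rw [Finset.sum_comm]
          refine Finset.sum_eq_zero fun j _ => ?_
          have h2 : ∑ i, c i * M i j = 0 := congrFun hc0 j
          calc ∑ i, M i j * (c i * w j) = (∑ i, c i * M i j) * w j := by
                rw [Finset.sum_mul]
                exact Finset.sum_congr rfl fun i _ => by ring
            _ = 0 := by rw [h2, zero_mul])
        exact h1
      have hfr : finrank ℝ (EE r) = finrank ℝ (Ix r → ℝ) := by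
        rw [finrank_euclideanSpace, Module.finrank_fintype_fun_eq_card]
      have hTsurj : Function.Surjective T :=
        (LinearMap.injective_iff_surjective_of_finrank_eq_finrank hfr).1 hTinj
      obtain ⟨c, hcz⟩ := hTsurj (fun j => bf N z (u j))
      set k : EE m := z + ∑ i, (-c i) • u i with hk
      have hkk : ∀ j, bf N k (u j) = 0 := by
        intro j
        have h2 : bf N (u j) (∑ i, (-c i) • u i) = ∑ i, c i * M i j := by
          rw [bf_sum_right]
          refine Finset.sum_congr rfl fun i _ => ?_
          rw [bf_smul_right, bf_anti hN (u i) (u j)]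
          simp only [M]
          ring
        have h3 : ∑ i, c i * M i j = bf N z (u j) := congrFun hcz j
        rw [hk, bf_add_left, bf_anti hN (u j) (∑ i, (-c i) • u i), h2, h3]
        ring
      have h4 : bf N v k = 0 := by
        have h5 := laplace (fun _ : Fin (r + 1) => fun i j =>
          bf N (ext v k u i) (ext v k u j)) (fun _ i j => bf_anti hN _ _) (by
            intro b b' _ x y
            rw [ext_e0, ext_em, hv x, zero_mul])
        have h6 : PF (fun _ : Fin (r + 1) => fun i j =>
          bf N (ext v k u i) (ext v k u j)) = 0 := hc (ext v k u)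
        rw [h6, Finset.sum_const, Finset.card_univ, Fintype.card_fin, nsmul_eq_mul] at h5
        have h7 : PF (fun (_ : Fin r) (i j : Ix r) => bf N (ext v k u (em i)) (ext v k u (em j)))
            = PN N r u := rfl
        rw [ext_e0, ext_e1, h7] at h5
        have h8 : (2 : ℝ) * (((r + 1 : ℕ) : ℝ) * (bf N v k * PN N r u)) ≠ 0 → False :=
          fun h => h h5.symm
        by_contra hne
        apply h8
        have : ((r + 1 : ℕ) : ℝ) ≠ 0 := by positivity
        exact mul_ne_zero two_ne_zero (mul_ne_zero this (mul_ne_zero hne hu))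
      have h9 : z = k + ∑ i, c i • u i := by
        rw [hk, add_assoc, ← Finset.sum_add_distrib]
        simp
      rw [h9, bf_add_right, h4, bf_sum_right, zero_add]
      refine Finset.sum_eq_zero fun i _ => ?_
      rw [bf_smul_right, hv, mul_zero]
  obtain ⟨u, hu⟩ := key m le_rfl
  apply hu
  unfold PN
  rw [PF_frame, hP, zero_mul]

/-- the criterion for a nonzero Pfaffian -/
theorem PF_ne_iff {N : Ix m → Ix m → ℝ} (hN : ∀ i j, N j i = - N i j) :
    PF (fun _ : Fin m => N) ≠ 0 ↔ ∀ v : EE m, v ≠ 0 → ∃ w, bf N v w ≠ 0 := by
  constructor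
  · intro h v hv
    by_contra hc
    push Not at hc
    exact h (PF_zero_of_kernel hN hv hc)
  · exact PF_ne_of_nondeg hN

/-- if the sum of squares is not zero then a linear combination has a nonzero Pfaffian -/
theorem exists_comb {n : ℕ} {ν : Fin n → Ix m → Ix m → ℝ} (h : SQ ν ≠ 0) :
    ∃ x : EuclideanSpace ℝ (Fin n), PF (fun _ : Fin m => om ν x) ≠ 0 := by
  classical
  by_contra hc
  push Not at hc
  apply h
  unfold SQ
  refine Finset.sum_eq_zero fun s _ => ?_
  have h1 := polarise (fun b => ν (s b))
  have h2 : ∀ t : Fin m → Bool, PF (fun _ : Fin m => fun i j => ∑ a, sg (t a) * ν (s a) i j) =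
      0 := by
    intro t
    have h3 := hc (WithLp.toLp 2 (fun c => ∑ a, sg (t a) * (if c = s a then 1 else 0)))
    have h4 : om ν (WithLp.toLp 2 (fun c => ∑ a, sg (t a) * (if c = s a then 1 else 0))) =
        fun i j => ∑ a, sg (t a) * ν (s a) i j := by
      funext i j
      unfold om
      simp only [Finset.sum_mul]
      rw [Finset.sum_comm]
      refine Finset.sum_congr rfl fun a _ => ?_
      rw [Finset.sum_eq_single (s a)]
      · simp
      · intro c _ hca
        simp [hca]
      · intro hn; exact absurd (Finset.mem_univ _) hn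
    rw [h4] at h3
    exact h3
  simp only [h2, mul_zero, av_const] at h1
  have h5 : (m.factorial : ℝ) ≠ 0 := by exact_mod_cast m.factorial_ne_zero
  rcases mul_eq_zero.1 h1 with h6 | h6
  · exact absurd h6 h5
  · rw [h6]; ring

/-- every linear combination is in the image of the operator `∑ a, ν a ⊗ ν a` -/
theorem exists_image {n : ℕ} (ν : Fin n → Ix m → Ix m → ℝ) (x : EuclideanSpace ℝ (Fin n)) :
    ∃ A : Ix m × Ix m → ℝ, ∀ i j,
      om ν x i j = ∑ p, A p * ∑ a, ν a p.1 p.2 * ν a i j := by
  classical
  let T : (Ix m × Ix m → ℝ) →ₗ[ℝ] EuclideanSpace ℝ (Fin n) :=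
    { toFun := fun A => WithLp.toLp 2 (fun a => ∑ p, A p * ν a p.1 p.2)
      map_add' := fun A A' => by
        ext a
        simp only [Pi.add_apply, add_mul, Finset.sum_add_distrib, PiLp.add_apply]
      map_smul' := fun t A => by
        ext a
        simp only [Pi.smul_apply, smul_eq_mul, RingHom.id_apply, PiLp.smul_apply,
          Finset.mul_sum, mul_assoc] }
  have hC : FiniteDimensional ℝ (LinearMap.range T) := inferInstance
  set c := (LinearMap.range T).starProjection x with hc
  have hcm : c ∈ LinearMap.range T := Submodule.starProjection_apply_mem _ _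
  obtain ⟨A, hA⟩ := hcm
  refine ⟨A, fun i j => ?_⟩
  have hd : x - c ∈ (LinearMap.range T)ᗮ := Submodule.sub_starProjection_mem_orthogonal _
  have h1 : ∑ a, (x - c) a * ν a i j = 0 := by
    have h2 := (Submodule.mem_orthogonal' _ _).1 hd (T (Pi.single (i, j) 1)) ⟨_, rfl⟩
    rw [PiLp.inner_apply] at h2
    have h3 : ∀ a, (T (Pi.single (i, j) 1)) a = ν a i j := by
      intro a
      show ∑ p, (Pi.single (i, j) (1 : ℝ) : Ix m × Ix m → ℝ) p * ν a p.1 p.2 = ν a i j
      rw [Finset.sum_eq_single (i, j)]
      · simp
      · intro b _ hb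
        simp [hb]
      · intro hn; exact absurd (Finset.mem_univ _) hn
    rw [← h2]
    refine Finset.sum_congr rfl fun a _ => ?_
    rw [h3]
    simp [mul_comm]
  have h4 : om ν x i j = ∑ a, c a * ν a i j := by
    unfold om
    rw [← sub_eq_zero, ← Finset.sum_sub_distrib, ← h1]
    refine Finset.sum_congr rfl fun a _ => ?_
    rw [PiLp.sub_apply]
    ring
  rw [h4, ← hA]
  show ∑ a, (∑ p, A p * ν a p.1 p.2) * ν a i j = _
  simp only [Finset.sum_mul, Finset.mul_sum]
  rw [Finset.sum_comm]
  exact Finset.sum_congr rfl fun p _ => Finset.sum_congr rfl fun a _ => by ring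

end forms

end Pool.Agent.H17.NO
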