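import Pool.Graph.R_seed8.TH598.GV.Geo

/-!
# Polarised Pfaffians: expansion along two vectors
-/

set_option autoImplicit false

namespace Pool.Agent.H17.NO

open Finset Pool.Agent.W666.GB

/-- indices of a frame of `2 k` vectors -/
abbrev Ix (k : ℕ) : Type := Fin k × Bool

/-- The polarised Pfaffian of `k` alternating matrices of size `2 k`, multiplied by `2 ^ k k!`. -/
noncomputable def PF {k : ℕ} (h : Fin k → Ix k → Ix k → ℝ) : ℝ :=
  ∑ σ : Equiv.Perm (Ix k), sn σ * ∏ b : Fin k, h b (σ (b, false)) (σ (b, true))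

/-- the last indices -/
def em {k : ℕ} (j : Ix k) : Ix (k + 1) := (j.1.succ, j.2)

/-- the first index -/
def e0 {k : ℕ} : Ix (k + 1) := (0, false)

/-- the second index -/
def e1 {k : ℕ} : Ix (k + 1) := (0, true)

theorem em_ne {k : ℕ} (j : Ix k) (c : Bool) : em j ≠ ((0, c) : Ix (k + 1)) := by
  intro h
  exact Fin.succ_ne_zero _ (congrArg Prod.fst h)

theorem e01 {k : ℕ} : (e0 : Ix (k + 1)) ≠ e1 := by
  intro h
  have := congrArg Prod.snd h
  simp [e1, e0] at this

theorem em_inj {k : ℕ} : Function.Injective (em (k := k)) := by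
  intro a b h
  have h1 := congrArg Prod.fst h
  have h2 := congrArg Prod.snd h
  exact Prod.ext (Fin.succ_injective _ h1) h2

theorem em_or {k : ℕ} (i : Ix (k + 1)) : i = e0 ∨ i = e1 ∨ ∃ a, i = em a := by
  obtain ⟨i, c⟩ := i
  refine Fin.cases ?_ (fun j => ?_) i
  · cases c
    · exact Or.inl rfl
    · exact Or.inr (Or.inl rfl)
  · exact Or.inr (Or.inr ⟨(j, c), rfl⟩)

/-- a permutation of the slots as a permutation of the indices -/
def hat {B : Type} (π : Equiv.Perm B) : Equiv.Perm (B × Bool) :=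
  Equiv.prodCongrLeft (fun _ => π)

@[simp] theorem hat_apply {B : Type} (π : Equiv.Perm B) (b : B) (c : Bool) :
    hat π (b, c) = (π b, c) := rfl

theorem sn_hat {B : Type} [Fintype B] [DecidableEq B] (π : Equiv.Perm B) : sn (hat π) = 1 := by
  rw [sn, hat, Equiv.Perm.sign_prodCongrLeft]
  simp

theorem sn_mul_hat {B : Type} [Fintype B] [DecidableEq B] (σ : Equiv.Perm (B × Bool))
    (π : Equiv.Perm B) : sn (σ * hat π) = sn σ := by
  rw [sn_mul, sn_hat, mul_one]

theorem PF_comp {k : ℕ} (h : Fin k → Ix k → Ix k → ℝ) (π : Equiv.Perm (Fin k)) :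
    PF (fun b => h (π b)) = PF h := by
  unfold PF
  rw [← Equiv.sum_comp (Equiv.mulRight (hat π))]
  refine Finset.sum_congr rfl fun σ _ => ?_
  rw [Equiv.coe_mulRight, sn_mul_hat]
  congr 1
  exact Equiv.prod_comp π (fun b => h b (σ (b, false)) (σ (b, true)))

/-- the indices as `Bool ⊕ Ix k` -/
def ie {k : ℕ} : Bool ⊕ Ix k ≃ Ix (k + 1) where
  toFun := Sum.elim (fun c => (0, c)) em
  invFun x := Fin.cases (motive := fun _ => Bool ⊕ Ix k) (Sum.inl x.2)
    (fun j => Sum.inr (j, x.2)) x.1
  left_inv := by rintro (c | j) <;> rfl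
  right_inv := by
    rintro ⟨i, c⟩
    refine Fin.cases ?_ (fun j => ?_) i <;> rfl

/-- a permutation of the last indices as a permutation of the indices -/
def ex {k : ℕ} (σ : Equiv.Perm (Ix k)) : Equiv.Perm (Ix (k + 1)) :=
  ie.permCongr (Equiv.Perm.sumCongr 1 σ)

theorem ex_zero {k : ℕ} (σ : Equiv.Perm (Ix k)) (c : Bool) :
    ex σ ((0, c) : Ix (k + 1)) = (0, c) := rfl

theorem ex_em {k : ℕ} (σ : Equiv.Perm (Ix k)) (a : Ix k) : ex σ (em a) = em (σ a) := rfl

theorem sn_ex {k : ℕ} (σ : Equiv.Perm (Ix k)) : sn (ex σ) = sn σ := by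
  unfold sn ex
  rw [Equiv.Perm.sign_permCongr, Equiv.Perm.sign_sumCongr, map_one, one_mul]

theorem ex_inj {k : ℕ} : Function.Injective (ex (k := k)) := by
  intro σ τ h
  refine Equiv.ext fun a => em_inj ?_
  rw [← ex_em, ← ex_em, h]

theorem ex_surj {k : ℕ} (σ : Equiv.Perm (Ix (k + 1)))
    (h : ∀ c, σ ((0, c) : Ix (k + 1)) = (0, c)) : ∃ τ, ex τ = σ := by
  have h1 : ∀ a : Ix k, ∃ b : Ix k, σ (em a) = em b := by
    intro a
    rcases em_or (σ (em a)) with hc | hc | hb
    · have : σ (em a) = σ (0, false) := by rw [h false, hc]; rfl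
      exact absurd (σ.injective this) (em_ne a false)
    · have : σ (em a) = σ (0, true) := by rw [h true, hc]; rfl
      exact absurd (σ.injective this) (em_ne a true)
    · exact hb
  choose f hf using h1
  have hinj : Function.Injective f := by
    intro a b hab
    apply em_inj
    apply σ.injective
    rw [hf, hf, hab]
  refine ⟨Equiv.ofBijective f (Finite.injective_iff_bijective.1 hinj), ?_⟩
  refine Equiv.ext fun i => ?_
  rcases em_or i with rfl | rfl | ⟨a, rfl⟩
  · exact (h false).symm
  · exact (h true).symm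
  · rw [ex_em, hf, Equiv.ofBijective_apply]

/-- sums over the permutations fixing `e0` and `e1` -/
theorem sum_fix {k : ℕ} (f : Equiv.Perm (Ix (k + 1)) → ℝ)
    (hf : ∀ σ, ¬ (σ (0, false) = e0 ∧ σ (0, true) = e1) → f σ = 0) :
    ∑ σ, f σ = ∑ σ : Equiv.Perm (Ix k), f (ex σ) := by
  symm
  refine Finset.sum_of_injOn ex (fun a _ b _ h => ex_inj h) (fun _ _ => Finset.mem_univ _)
    (fun σ _ hσ => hf σ fun h => hσ ?_) (fun _ _ => rfl)
  obtain ⟨τ, hτ⟩ := ex_surj σ (fun c => by cases c; exacts [h.1, h.2])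
  exact ⟨τ, Finset.mem_coe.2 (Finset.mem_univ _), hτ⟩

/-- the form `e₀ ∧ e₁` -/
noncomputable def WW {k : ℕ} (i j : Ix (k + 1)) : ℝ :=
  (if i = e0 then 1 else 0) * (if j = e1 then 1 else 0) -
    (if i = e1 then 1 else 0) * (if j = e0 then 1 else 0)

theorem half {k : ℕ} (F : (Ix k → Ix (k + 1)) → ℝ) :
    ∑ σ : Equiv.Perm (Ix (k + 1)), sn σ * WW (σ (0, false)) (σ (0, true)) *
        F (fun a => σ (em a)) =
      2 * ∑ σ : Equiv.Perm (Ix k), sn σ * F (fun a => em (σ a)) := by
  have hA : ∑ σ : Equiv.Perm (Ix (k + 1)), sn σ * ((if σ (0, false) = e0 then 1 else 0) *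
      (if σ (0, true) = e1 then 1 else 0)) * F (fun a => σ (em a)) =
      ∑ σ : Equiv.Perm (Ix k), sn σ * F (fun a => em (σ a)) := by
    rw [sum_fix]
    · refine Finset.sum_congr rfl fun σ _ => ?_
      have e0' : ex σ ((0, false) : Ix (k + 1)) = e0 := rfl
      have e1' : ex σ ((0, true) : Ix (k + 1)) = e1 := rfl
      rw [sn_ex, e0', e1', if_pos rfl, if_pos rfl, mul_one, mul_one]
      rfl
    · intro σ hσ
      by_cases h0 : σ (0, false) = e0
      · have h1 : σ (0, true) ≠ e1 := fun h1 => hσ ⟨h0, h1⟩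
        rw [if_neg h1, mul_zero, mul_zero, zero_mul]
      · rw [if_neg h0, zero_mul, mul_zero, zero_mul]
  have hB : ∑ σ : Equiv.Perm (Ix (k + 1)), sn σ * ((if σ (0, false) = e1 then 1 else 0) *
      (if σ (0, true) = e0 then 1 else 0)) * F (fun a => σ (em a)) =
      - ∑ σ : Equiv.Perm (Ix k), sn σ * F (fun a => em (σ a)) := by
    rw [← hA, ← Equiv.sum_comp (Equiv.mulRight (Equiv.swap (e0 : Ix (k + 1)) e1)),
      ← Finset.sum_neg_distrib]
    refine Finset.sum_congr rfl fun σ _ => ?_
    have hcs : sn (Equiv.swap (e0 : Ix (k + 1)) e1) = -1 := by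
      unfold sn
      rw [Equiv.Perm.sign_swap e01]
      simp
    have h0 : (σ * Equiv.swap (e0 : Ix (k + 1)) e1) (0, false) = σ (0, true) :=
      congrArg σ (Equiv.swap_apply_left (e0 : Ix (k + 1)) e1)
    have h1 : (σ * Equiv.swap (e0 : Ix (k + 1)) e1) (0, true) = σ (0, false) :=
      congrArg σ (Equiv.swap_apply_right (e0 : Ix (k + 1)) e1)
    have h2 : (fun a : Ix k => (σ * Equiv.swap (e0 : Ix (k + 1)) e1) (em a)) =
        fun a => σ (em a) := by
      funext a
      exact congrArg σ (Equiv.swap_apply_of_ne_of_ne (a := (e0 : Ix (k + 1))) (b := e1)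
        (em_ne a false) (em_ne a true))
    rw [Equiv.coe_mulRight, h0, h1, h2, sn_mul, hcs]
    ring
  have hC : ∀ σ : Equiv.Perm (Ix (k + 1)),
      sn σ * WW (σ (0, false)) (σ (0, true)) * F (fun a => σ (em a)) =
      sn σ * ((if σ (0, false) = e0 then 1 else 0) *
        (if σ (0, true) = e1 then 1 else 0)) * F (fun a => σ (em a)) -
      sn σ * ((if σ (0, false) = e1 then 1 else 0) *
        (if σ (0, true) = e0 then 1 else 0)) * F (fun a => σ (em a)) := by
    intro σ
    unfold WW
    ring
  rw [Finset.sum_congr rfl fun σ _ => hC σ, Finset.sum_sub_distrib, hA, hB]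
  ring

/-- an alternating matrix on the pairs containing `e₀`, when the other entries do not matter -/
theorem slot_zero {k : ℕ} (σ : Equiv.Perm (Ix (k + 1))) (b : Fin (k + 1))
    (h : WW (σ (b, false)) (σ (b, true)) ≠ 0) :
    (σ (b, false) = e0 ∧ σ (b, true) = e1) ∨ (σ (b, false) = e1 ∧ σ (b, true) = e0) := by
  by_contra hc
  push Not at hc
  apply h
  unfold WW
  by_cases h0 : σ (b, false) = e0
  · have h1 := hc.1 h0
    rw [if_neg h1, if_neg (show ¬ σ (b, false) = e1 by rw [h0]; exact e01)]
    ring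
  · rw [if_neg h0]
    by_cases h2 : σ (b, false) = e1
    · rw [if_neg (hc.2 h2)]; ring
    · rw [if_neg h2]; ring

theorem prod_slots {k : ℕ} (h : Fin (k + 1) → Ix (k + 1) → Ix (k + 1) → ℝ)
    (ha : ∀ b i j, h b j i = - h b i j)
    (hz : ∀ b b', b ≠ b' → ∀ x y : Ix k, h b e0 (em x) * h b' e1 (em y) = 0)
    (σ : Equiv.Perm (Ix (k + 1))) :
    ∏ b, h b (σ (b, false)) (σ (b, true)) =
      ∑ b, h b e0 e1 * (WW (σ (b, false)) (σ (b, true)) *
        ∏ c : Fin k, h (b.succAbove c) (σ (b.succAbove c, false)) (σ (b.succAbove c, true))) := by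
  obtain ⟨⟨b0, β0⟩, hb0⟩ := σ.surjective e0
  obtain ⟨⟨b1, β1⟩, hb1⟩ := σ.surjective e1
  by_cases hb : b0 = b1
  · subst hb
    have hβ : β0 ≠ β1 := by
      intro h'
      subst h'
      exact e01 (hb0.symm.trans hb1)
    rw [Finset.sum_eq_single b0]
    · rw [Fin.prod_univ_succAbove _ b0, ← mul_assoc]
      congr 1
      cases β0 <;> cases β1
      · exact absurd rfl hβ
      · rw [hb0, hb1]
        unfold WW
        rw [if_pos rfl, if_pos rfl, if_neg e01]
        ring
      · rw [hb0, hb1, ha]
        unfold WW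
        rw [if_pos rfl, if_pos rfl, if_neg (Ne.symm e01)]
        ring
      · exact absurd rfl hβ
    · intro b _ hne
      have : WW (σ (b, false)) (σ (b, true)) = 0 := by
        by_contra hW
        rcases slot_zero σ b hW with h1 | h1
        · have := σ.injective (h1.1.trans hb0.symm)
          exact hne (congrArg Prod.fst this)
        · have := σ.injective (h1.2.trans hb0.symm)
          exact hne (congrArg Prod.fst this)
      rw [this, zero_mul, mul_zero]
    · intro hn
      exact absurd (Finset.mem_univ _) hn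
  · -- both sides vanish
    have hR : ∀ b, WW (σ (b, false)) (σ (b, true)) = 0 := by
      intro b
      by_contra hW
      apply hb
      rcases slot_zero σ b hW with h1 | h1
      · have h2 := σ.injective (h1.1.trans hb0.symm)
        have h3 := σ.injective (h1.2.trans hb1.symm)
        exact (congrArg Prod.fst h2).symm.trans (congrArg Prod.fst h3)
      · have h2 := σ.injective (h1.2.trans hb0.symm)
        have h3 := σ.injective (h1.1.trans hb1.symm)
        exact (congrArg Prod.fst h2).symm.trans (congrArg Prod.fst h3)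
    rw [Finset.sum_eq_zero (fun b _ => by rw [hR b, zero_mul, mul_zero])]
    -- the partner of `e₀`
    have hx : ∃ x : Ix k, σ (b0, !β0) = em x := by
      rcases em_or (σ (b0, !β0)) with h1 | h1 | h1
      · have := σ.injective (h1.trans hb0.symm)
        have := congrArg Prod.snd this
        cases β0 <;> simp at this
      · have := σ.injective (h1.trans hb1.symm)
        exact absurd (congrArg Prod.fst this) hb
      · exact h1
    have hy : ∃ y : Ix k, σ (b1, !β1) = em y := by
      rcases em_or (σ (b1, !β1)) with h1 | h1 | h1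
      · have := σ.injective (h1.trans hb0.symm)
        exact absurd (congrArg Prod.fst this).symm hb
      · have := σ.injective (h1.trans hb1.symm)
        have := congrArg Prod.snd this
        cases β1 <;> simp at this
      · exact h1
    obtain ⟨x, hx⟩ := hx
    obtain ⟨y, hy⟩ := hy
    have h2 := hz b0 b1 hb x y
    rw [Fin.prod_univ_succAbove _ b0]
    obtain ⟨c, hc⟩ := Fin.exists_succAbove_eq (Ne.symm hb)
    rw [← Finset.mul_prod_erase _ _ (Finset.mem_univ c), hc, ← mul_assoc]
    have h3 : h b0 (σ (b0, false)) (σ (b0, true)) * h b1 (σ (b1, false)) (σ (b1, true)) = 0 := by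
      cases β0 <;> cases β1
      · simp only [Bool.not_false] at hx hy
        rw [hb0, hx, hb1, hy]; exact h2
      · simp only [Bool.not_false, Bool.not_true] at hx hy
        rw [hb0, hx, hb1, hy, ha b1 e1 (em y)]
        linear_combination -h2
      · simp only [Bool.not_false, Bool.not_true] at hx hy
        rw [hb0, hx, hb1, hy, ha b0 e0 (em x)]
        linear_combination -h2
      · simp only [Bool.not_true] at hx hy
        rw [hb0, hx, hb1, hy, ha b1 e1 (em y), ha b0 e0 (em x)]
        linear_combination h2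
    rw [h3, zero_mul]

/-- **Expansion of the polarised Pfaffian** along the first two vectors. -/
theorem laplace {k : ℕ} (h : Fin (k + 1) → Ix (k + 1) → Ix (k + 1) → ℝ)
    (ha : ∀ b i j, h b j i = - h b i j)
    (hz : ∀ b b', b ≠ b' → ∀ x y : Ix k, h b e0 (em x) * h b' e1 (em y) = 0) :
    PF h = 2 * ∑ b, h b e0 e1 * PF (fun c i j => h (b.succAbove c) (em i) (em j)) := by
  unfold PF
  simp only [prod_slots h ha hz, Finset.mul_sum]
  rw [Finset.sum_comm]
  refine Finset.sum_congr rfl fun b _ => ?_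
  rw [← Equiv.sum_comp (Equiv.mulRight (hat b.cycleRange))]
  have hF := half (fun g : Ix k → Ix (k + 1) =>
    ∏ c : Fin k, h (b.succAbove c) (g (c, false)) (g (c, true)))
  have h1 : ∀ σ : Equiv.Perm (Ix (k + 1)),
      sn (Equiv.mulRight (hat b.cycleRange) σ) * (h b e0 e1 *
        (WW (Equiv.mulRight (hat b.cycleRange) σ (b, false))
          (Equiv.mulRight (hat b.cycleRange) σ (b, true)) *
        ∏ c : Fin k, h (b.succAbove c)
          (Equiv.mulRight (hat b.cycleRange) σ (b.succAbove c, false))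
          (Equiv.mulRight (hat b.cycleRange) σ (b.succAbove c, true)))) =
      h b e0 e1 * (sn σ * WW (σ (0, false)) (σ (0, true)) *
        ∏ c : Fin k, h (b.succAbove c) (σ (em (c, false))) (σ (em (c, true)))) := by
    intro σ
    rw [Equiv.coe_mulRight, sn_mul_hat]
    simp only [Equiv.Perm.mul_apply, hat_apply, Fin.cycleRange_self, Fin.cycleRange_succAbove, em]
    ring
  rw [Finset.sum_congr rfl fun σ _ => h1 σ, ← Finset.mul_sum, hF]
  simp only [Finset.mul_sum]
  refine Finset.sum_congr rfl fun σ _ => ?_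
  ring

end Pool.Agent.H17.NO
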