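import Pool.Agent.H17.NO.Pf

/-!
# Polarisation, squares and the Cauchy–Schwarz inequality
-/

set_option autoImplicit false

namespace Pool.Agent.H17.NO

open Finset Pool.Agent.W666.GB

theorem polarise {k : ℕ} (h : Fin k → Ix k → Ix k → ℝ) :
    (k.factorial : ℝ) * PF h = av (fun s : Fin k → Bool => (∏ a, sg (s a)) *
      PF (fun _ : Fin k => fun i j => ∑ a, sg (s a) * h a i j)) := by
  classical
  have h1 : ∀ s : Fin k → Bool, (∏ a, sg (s a)) *
      PF (fun _ : Fin k => fun i j => ∑ a, sg (s a) * h a i j) =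
      ∑ σ : Equiv.Perm (Ix k), ∑ f : Fin k → Fin k, (((∏ a, sg (s a)) * ∏ i, sg (s (f i))) *
        (sn σ * ∏ b, h (f b) (σ (b, false)) (σ (b, true)))) := by
    intro s
    unfold PF
    rw [Finset.mul_sum]
    refine Finset.sum_congr rfl fun σ _ => ?_
    rw [Fintype.prod_sum, Finset.mul_sum, Finset.mul_sum]
    refine Finset.sum_congr rfl fun f _ => ?_
    rw [Finset.prod_mul_distrib]; ring
  simp only [h1, av_sum, av_mul_right, av_sg_prod]
  have h2 : ∀ σ : Equiv.Perm (Ix k), ∑ f : Fin k → Fin k,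
      (if Function.Bijective f then (1 : ℝ) else 0) *
        (sn σ * ∏ b, h (f b) (σ (b, false)) (σ (b, true))) =
        ∑ β : Equiv.Perm (Fin k), sn σ * ∏ b, h (β b) (σ (b, false)) (σ (b, true)) := fun σ =>
    sum_bij_perm (fun f => sn σ * ∏ b, h (f b) (σ (b, false)) (σ (b, true)))
  rw [Finset.sum_congr rfl fun σ _ => h2 σ, Finset.sum_comm]
  have h3 : ∀ β : Equiv.Perm (Fin k),
      ∑ σ : Equiv.Perm (Ix k), sn σ * ∏ b, h (β b) (σ (b, false)) (σ (b, true)) = PF h :=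
    fun β => PF_comp h β
  rw [Finset.sum_congr rfl fun β _ => h3 β, Finset.sum_const, Finset.card_univ,
    Fintype.card_perm, Fintype.card_fin, nsmul_eq_mul]

theorem PF_smul {k : ℕ} (c : ℝ) (g : Ix k → Ix k → ℝ) :
    PF (fun _ : Fin k => fun i j => c * g i j) = c ^ k * PF (fun _ : Fin k => g) := by
  unfold PF
  rw [Finset.mul_sum]
  refine Finset.sum_congr rfl fun σ _ => ?_
  rw [Finset.prod_mul_distrib, Finset.prod_const, Finset.card_univ, Fintype.card_fin]
  ring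

/-- the value at a linear combination -/
theorem PF_sum {k n : ℕ} (x : Fin n → ℝ) (ν : Fin n → Ix k → Ix k → ℝ) :
    PF (fun _ : Fin k => fun i j => ∑ a, x a * ν a i j) =
      ∑ s : Fin k → Fin n, (∏ b, x (s b)) * PF (fun b => ν (s b)) := by
  unfold PF
  simp only [Fintype.prod_sum, Finset.mul_sum]
  rw [Finset.sum_comm]
  refine Finset.sum_congr rfl fun s _ => Finset.sum_congr rfl fun σ _ => ?_
  rw [Finset.prod_mul_distrib]
  ring

/-- the sum of the squares of the polarised Pfaffians -/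
noncomputable def SQ {k n : ℕ} (ν : Fin n → Ix k → Ix k → ℝ) : ℝ :=
  ∑ s : Fin k → Fin n, PF (fun b => ν (s b)) ^ 2

theorem SQ_eq {k n : ℕ} (ν : Fin n → Ix k → Ix k → ℝ) :
    ∑ σ : Equiv.Perm (Ix k), ∑ τ : Equiv.Perm (Ix k), sn σ * sn τ *
      ∏ b : Fin k, ∑ a, ν a (σ (b, false)) (σ (b, true)) * ν a (τ (b, false)) (τ (b, true)) =
      SQ ν := by
  unfold SQ PF
  simp only [Fintype.prod_sum, Finset.mul_sum, sq, Finset.sum_mul]
  have h1 : ∀ σ : Equiv.Perm (Ix k), ∑ τ : Equiv.Perm (Ix k), ∑ s : Fin k → Fin n,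
      sn σ * sn τ * ∏ b, ν (s b) (σ (b, false)) (σ (b, true)) *
        ν (s b) (τ (b, false)) (τ (b, true)) =
      ∑ s : Fin k → Fin n, ∑ τ : Equiv.Perm (Ix k), sn σ * sn τ *
        ∏ b, ν (s b) (σ (b, false)) (σ (b, true)) * ν (s b) (τ (b, false)) (τ (b, true)) :=
    fun σ => Finset.sum_comm
  rw [Finset.sum_congr rfl fun σ _ => h1 σ, Finset.sum_comm]
  refine Finset.sum_congr rfl fun s _ => ?_
  rw [Finset.sum_comm]
  refine Finset.sum_congr rfl fun τ _ => Finset.sum_congr rfl fun σ _ => ?_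
  rw [Finset.prod_mul_distrib]
  ring

theorem sq_le_SQ {k n : ℕ} (x : Fin n → ℝ) (ν : Fin n → Ix k → Ix k → ℝ) :
    PF (fun _ : Fin k => fun i j => ∑ a, x a * ν a i j) ^ 2 ≤ (∑ a, x a ^ 2) ^ k * SQ ν := by
  rw [PF_sum]
  refine (Finset.sum_mul_sq_le_sq_mul_sq _ _ _).trans (le_of_eq ?_)
  unfold SQ
  congr 1
  have h1 : (∑ a, x a ^ 2) ^ k = ∏ _b : Fin k, ∑ a, x a ^ 2 := by
    rw [Finset.prod_const, Finset.card_univ, Fintype.card_fin]
  rw [h1, Fintype.prod_sum]
  exact Finset.sum_congr rfl fun s _ => (Finset.prod_pow _ _ _).symm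

end Pool.Agent.H17.NO
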