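import Pool.Agent.H17.NO.Nondeg

/-!
# Expansion in one slot, and mixed Pfaffians with unit forms
-/

set_option autoImplicit false

namespace Pool.Agent.H17.NO

open Finset Pool.Agent.W666.GB Pool.Agent.W669.HD Module

/-- a permutation with two prescribed values -/
theorem exists_perm {k : ℕ} {p q : Ix (k + 1)} (hpq : p ≠ q) :
    ∃ π : Equiv.Perm (Ix (k + 1)), π e0 = p ∧ π e1 = q := by
  have h1 : Equiv.swap e0 p e1 ≠ p := by
    intro h
    rw [Equiv.swap_apply_eq_iff, Equiv.swap_apply_right] at h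
    exact e01 h.symm
  refine ⟨Equiv.swap (Equiv.swap e0 p e1) q * Equiv.swap e0 p, ?_, ?_⟩
  · rw [Equiv.Perm.mul_apply, Equiv.swap_apply_left,
      Equiv.swap_apply_of_ne_of_ne (Ne.symm h1) hpq]
  · rw [Equiv.Perm.mul_apply, Equiv.swap_apply_left]

theorem fixed_pair {k : ℕ} (h : Fin k → Ix (k + 1) → Ix (k + 1) → ℝ) {p q : Ix (k + 1)}
    (hpq : p ≠ q) :
    ∃ (ι : Ix k → Ix (k + 1)) (s : ℝ), |s| = 1 ∧
      ∑ σ : Equiv.Perm (Ix (k + 1)), (if σ (0, false) = p ∧ σ (0, true) = q then
        sn σ * ∏ c : Fin k, h c (σ (em (c, false))) (σ (em (c, true))) else 0) =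
      s * PF (fun c i j => h c (ι i) (ι j)) := by
  obtain ⟨π, h0, h1⟩ := exists_perm hpq
  refine ⟨fun i => π (em i), sn π, abs_sn π, ?_⟩
  rw [← Equiv.sum_comp (Equiv.mulLeft π), sum_fix]
  · unfold PF
    rw [Finset.mul_sum]
    refine Finset.sum_congr rfl fun σ _ => ?_
    have e0' : (Equiv.mulLeft π) (ex σ) ((0, false) : Ix (k + 1)) = p := h0
    have e1' : (Equiv.mulLeft π) (ex σ) ((0, true) : Ix (k + 1)) = q := h1
    rw [e0', e1', if_pos ⟨rfl, rfl⟩, Equiv.coe_mulLeft, sn_mul, sn_ex, mul_assoc]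
    rfl
  · intro σ hσ
    rw [if_neg]
    rintro ⟨h2, h3⟩
    apply hσ
    constructor
    · apply π.injective
      rw [h0]
      exact h2
    · apply π.injective
      rw [h1]
      exact h3

/-- **Expansion in the slot `b`**: a bound. -/
theorem slot_bound {k : ℕ} (h : Fin (k + 1) → Ix (k + 1) → Ix (k + 1) → ℝ) (b : Fin (k + 1))
    {t B : ℝ} (ht : ∀ i j, |h b i j| ≤ t) (hB0 : 0 ≤ B)
    (hB : ∀ ι : Ix k → Ix (k + 1),
      |PF (fun c i j => h (b.succAbove c) (ι i) (ι j))| ≤ B) :
    |PF h| ≤ (2 * (k + 1)) ^ 2 * (t * B) := by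
  classical
  have ht0 : 0 ≤ t := (abs_nonneg _).trans (ht e0 e0)
  have h1 : PF h = ∑ σ : Equiv.Perm (Ix (k + 1)), sn σ * (h b (σ (0, false)) (σ (0, true)) *
      ∏ c : Fin k, h (b.succAbove c) (σ (em (c, false))) (σ (em (c, true)))) := by
    unfold PF
    rw [← Equiv.sum_comp (Equiv.mulRight (hat b.cycleRange))]
    refine Finset.sum_congr rfl fun σ _ => ?_
    rw [Equiv.coe_mulRight, sn_mul_hat, Fin.prod_univ_succAbove _ b]
    simp only [Equiv.Perm.mul_apply, hat_apply, Fin.cycleRange_self, Fin.cycleRange_succAbove, em]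
  have h2 : PF h = ∑ p : Ix (k + 1), ∑ q : Ix (k + 1), h b p q *
      ∑ σ : Equiv.Perm (Ix (k + 1)), (if σ (0, false) = p ∧ σ (0, true) = q then
        sn σ * ∏ c : Fin k, h (b.succAbove c) (σ (em (c, false))) (σ (em (c, true))) else 0) := by
    rw [h1]
    simp only [Finset.mul_sum]
    have h3 : ∀ p : Ix (k + 1), ∑ q : Ix (k + 1), ∑ σ : Equiv.Perm (Ix (k + 1)), h b p q *
        (if σ (0, false) = p ∧ σ (0, true) = q then sn σ * ∏ c : Fin k,
          h (b.succAbove c) (σ (em (c, false))) (σ (em (c, true))) else 0) =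
        ∑ σ : Equiv.Perm (Ix (k + 1)), ∑ q : Ix (k + 1), h b p q *
        (if σ (0, false) = p ∧ σ (0, true) = q then sn σ * ∏ c : Fin k,
          h (b.succAbove c) (σ (em (c, false))) (σ (em (c, true))) else 0) :=
      fun p => Finset.sum_comm
    simp only [h3]
    rw [Finset.sum_comm]
    refine Finset.sum_congr rfl fun σ _ => ?_
    rw [Finset.sum_eq_single (σ (0, false))]
    · rw [Finset.sum_eq_single (σ (0, true))]
      · rw [if_pos ⟨rfl, rfl⟩]; ring
      · intro q _ hq
        rw [if_neg (fun hh => hq hh.2.symm), mul_zero]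
      · intro hn; exact absurd (Finset.mem_univ _) hn
    · intro p _ hp
      refine Finset.sum_eq_zero fun q _ => ?_
      rw [if_neg (fun hh => hp hh.1.symm), mul_zero]
    · intro hn; exact absurd (Finset.mem_univ _) hn
  have h4 : ∀ p q : Ix (k + 1), |h b p q *
      ∑ σ : Equiv.Perm (Ix (k + 1)), (if σ (0, false) = p ∧ σ (0, true) = q then
        sn σ * ∏ c : Fin k, h (b.succAbove c) (σ (em (c, false))) (σ (em (c, true))) else 0)| ≤
      t * B := by
    intro p q
    rw [abs_mul]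
    refine mul_le_mul (ht p q) ?_ (abs_nonneg _) ht0
    by_cases hpq : p = q
    · subst hpq
      rw [Finset.sum_eq_zero]
      · rw [abs_zero]; exact hB0
      · intro σ _
        rw [if_neg]
        rintro ⟨h5, h6⟩
        have := σ.injective (h5.trans h6.symm)
        simp at this
    · obtain ⟨ι, s, hs, hι⟩ := fixed_pair (fun c => h (b.succAbove c)) hpq
      rw [hι, abs_mul, hs, one_mul]
      exact hB ι
  rw [h2]
  refine (Finset.abs_sum_le_sum_abs _ _).trans ?_
  have h5 : ∀ p ∈ (univ : Finset (Ix (k + 1))), |∑ q : Ix (k + 1), h b p q *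
      ∑ σ : Equiv.Perm (Ix (k + 1)), (if σ (0, false) = p ∧ σ (0, true) = q then
        sn σ * ∏ c : Fin k, h (b.succAbove c) (σ (em (c, false))) (σ (em (c, true))) else 0)| ≤
      (2 * (k + 1)) * (t * B) := by
    intro p _
    refine (Finset.abs_sum_le_sum_abs _ _).trans ?_
    refine (Finset.sum_le_card_nsmul _ _ _ fun q _ => h4 p q).trans (le_of_eq ?_)
    rw [Finset.card_univ, Fintype.card_prod, Fintype.card_fin, Fintype.card_bool, nsmul_eq_mul]
    push_cast
    ring
  refine (Finset.sum_le_card_nsmul _ _ _ h5).trans (le_of_eq ?_)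
  rw [Finset.card_univ, Fintype.card_prod, Fintype.card_fin, Fintype.card_bool, nsmul_eq_mul]
  push_cast
  ring

section fam

variable {m n : ℕ}

/-- the form `e_p ∧ e_q` -/
noncomputable def Eu (p : Ix m × Ix m) (i j : Ix m) : ℝ :=
  (if i = p.1 then 1 else 0) * (if j = p.2 then 1 else 0) -
    (if i = p.2 then 1 else 0) * (if j = p.1 then 1 else 0)

theorem bf_Eu (p : Ix m × Ix m) (v w : EE m) :
    bf (Eu p) v w = v p.1 * w p.2 - v p.2 * w p.1 := by
  unfold bf Eu
  simp only [sub_mul, Finset.sum_sub_distrib]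
  congr 1
  · rw [Finset.sum_eq_single p.1]
    · rw [Finset.sum_eq_single p.2]
      · simp
      · intro j _ hj; simp [hj]
      · intro hn; exact absurd (Finset.mem_univ _) hn
    · intro i _ hi
      refine Finset.sum_eq_zero fun j _ => ?_
      simp [hi]
    · intro hn; exact absurd (Finset.mem_univ _) hn
  · rw [Finset.sum_eq_single p.2]
    · rw [Finset.sum_eq_single p.1]
      · simp
      · intro j _ hj; simp [hj]
      · intro hn; exact absurd (Finset.mem_univ _) hn
    · intro i _ hi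
      refine Finset.sum_eq_zero fun j _ => ?_
      simp [hi]
    · intro hn; exact absurd (Finset.mem_univ _) hn

theorem coord_le (v : EE m) (hv : ‖v‖ ≤ 1) (i : Ix m) : |v i| ≤ 1 := by
  have := PiLp.norm_apply_le v i
  rw [Real.norm_eq_abs] at this
  exact this.trans hv

theorem bf_Eu_le (p : Ix m × Ix m) (v w : EE m) (hv : ‖v‖ ≤ 1) (hw : ‖w‖ ≤ 1) :
    |bf (Eu p) v w| ≤ 2 := by
  rw [bf_Eu]
  have h1 : |v p.1 * w p.2| ≤ 1 := by
    rw [abs_mul]
    exact mul_le_one₀ (coord_le v hv _) (abs_nonneg _) (coord_le w hw _)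
  have h2 : |v p.2 * w p.1| ≤ 1 := by
    rw [abs_mul]
    exact mul_le_one₀ (coord_le v hv _) (abs_nonneg _) (coord_le w hw _)
  calc |v p.1 * w p.2 - v p.2 * w p.1| ≤ |v p.1 * w p.2| + |v p.2 * w p.1| := abs_sub _ _
    _ ≤ 2 := by linarith

/-- the forms `ν a` and the unit forms -/
noncomputable def rho (ν : Fin n → Ix m → Ix m → ℝ) : Fin n ⊕ (Ix m × Ix m) → Ix m → Ix m → ℝ :=
  Sum.elim ν Eu

/-- **Mixed Pfaffians with unit forms.** -/
theorem mixed_unit (hm : 1 ≤ m) (ν : Fin n → Ix m → Ix m → ℝ) {δ : ℝ} (hδ : 0 ≤ δ) (q : ℕ → ℝ)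
    (hq : ∀ (r : ℕ) (x : EuclideanSpace ℝ (Fin n)) (u : Ix r → EE m), ‖x‖ ≤ 1 →
      (∀ j, ‖u j‖ ≤ 1) → |Fr ν r x u| ≤ q r)
    (hstep : ∀ r, r < m → δ * q r ≤ Real.exp (r + 1) * q (r + 1)) (k : ℕ) (hk : k ≤ m)
    (s : Fin k → Fin n ⊕ (Ix m × Ix m)) (z : Ix k → EE m) (hz : ∀ i, ‖z i‖ ≤ 1) :
    (∏ b, Sum.elim (fun _ => (1 : ℝ)) (fun _ => δ / (8 * m ^ 2 * Real.exp m)) (s b)) *
      |PF (fun b i j => bf (rho ν (s b)) (z i) (z j))| ≤ Real.exp m * q k := by
  have hq0 : ∀ r, 0 ≤ q r := fun r =>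
    (abs_nonneg _).trans (hq r 0 (fun _ => 0) (by simp) (fun _ => by simp))
  have hm0 : (0 : ℝ) < m := by exact_mod_cast hm
  have hd0 : 0 ≤ δ / (8 * m ^ 2 * Real.exp m) := by positivity
  induction k with
  | zero =>
    have h1 : |PF (fun (b : Fin 0) i j => bf (rho ν (s b)) (z i) (z j))| ≤ q 0 := by
      have h2 := hq 0 0 (fun _ => 0) (by simp) (fun _ => by simp)
      refine le_trans (le_of_eq ?_) h2
      unfold Fr PF
      simp
    rw [Finset.univ_eq_empty, Finset.prod_empty, one_mul]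
    exact h1.trans (le_mul_of_one_le_left (hq0 0) (Real.one_le_exp hm0.le))
  | succ k ih =>
    by_cases hs : ∃ b p, s b = Sum.inr p
    · obtain ⟨b, p, hb⟩ := hs
      set D : Fin n ⊕ (Ix m × Ix m) → ℝ :=
        Sum.elim (fun _ => (1 : ℝ)) (fun _ => δ / (8 * m ^ 2 * Real.exp m)) with hD
      have hD0 : ∀ c, 0 ≤ D c := by
        rintro (c | c)
        · exact zero_le_one
        · exact hd0
      rw [Fin.prod_univ_succAbove _ b]
      have hDb : D (s b) = δ / (8 * m ^ 2 * Real.exp m) := by rw [hb]; rfl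
      rw [hDb]
      set P := ∏ c : Fin k, D (s (b.succAbove c)) with hP
      have hP0 : 0 ≤ P := Finset.prod_nonneg fun c _ => hD0 _
      rcases hP0.eq_or_lt with h0 | h0
      · rw [← h0, mul_zero, zero_mul]
        exact mul_nonneg (Real.exp_pos _).le (hq0 _)
      have h1 := slot_bound (fun b i j => bf (rho ν (s b)) (z i) (z j)) b (t := 2)
        (B := Real.exp m * q k / P) (fun i j => by
          rw [hb]
          exact bf_Eu_le p _ _ (hz i) (hz j)) (by
            exact div_nonneg (mul_nonneg (Real.exp_pos _).le (hq0 _)) h0.le) (by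
          intro ι
          have h2 := ih (by omega) (fun c => s (b.succAbove c)) (fun i => z (ι i))
            (fun i => hz _)
          rw [le_div_iff₀ h0, mul_comm]
          exact h2)
      have h3 : δ / (8 * m ^ 2 * Real.exp m) * P *
          |PF (fun b i j => bf (rho ν (s b)) (z i) (z j))| ≤
          δ / (8 * m ^ 2 * Real.exp m) * P *
          ((2 * ((k : ℝ) + 1)) ^ 2 * (2 * (Real.exp m * q k / P))) :=
        mul_le_mul_of_nonneg_left h1 (mul_nonneg hd0 h0.le)
      refine h3.trans ?_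
      have h4 : δ / (8 * m ^ 2 * Real.exp m) * P *
          ((2 * ((k : ℝ) + 1)) ^ 2 * (2 * (Real.exp m * q k / P))) =
          (((k : ℝ) + 1) ^ 2 / m ^ 2) * (δ * q k) := by
        have := Real.exp_pos (m : ℝ)
        field_simp
        ring
      rw [h4]
      have hkm : ((k : ℝ) + 1) ≤ m := by exact_mod_cast hk
      have h5 : ((k : ℝ) + 1) ^ 2 / m ^ 2 ≤ 1 := by
        rw [div_le_one (by positivity)]
        exact pow_le_pow_left₀ (by positivity) hkm 2
      have h6 := hstep k (by omega)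
      have h7 : 0 ≤ δ * q k := mul_nonneg hδ (hq0 _)
      calc (((k : ℝ) + 1) ^ 2 / m ^ 2) * (δ * q k) ≤ 1 * (δ * q k) :=
            mul_le_mul_of_nonneg_right h5 h7
        _ = δ * q k := one_mul _
        _ ≤ Real.exp (k + 1) * q (k + 1) := h6
        _ ≤ Real.exp m * q (k + 1) :=
          mul_le_mul_of_nonneg_right (Real.exp_le_exp.2 hkm) (hq0 _)
    · push Not at hs
      have h1 : ∀ b, ∃ a, s b = Sum.inl a := by
        intro b
        rcases h : s b with a | p
        · exact ⟨a, rfl⟩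
        · exact absurd h (hs b p)
      choose a ha using h1
      have h2 : ∏ b, Sum.elim (fun _ => (1 : ℝ)) (fun _ => δ / (8 * m ^ 2 * Real.exp m)) (s b) =
          1 := by
        refine Finset.prod_eq_one fun b _ => ?_
        rw [ha]; rfl
      rw [h2, one_mul]
      have h3 := mixed_le ν z (hQ := fun x hx => hq (k + 1) x z hx hz)
        (fun b => EuclideanSpace.single (a b) (1 : ℝ)) (fun b => by simp)
      have h4 : ∀ b, om ν (EuclideanSpace.single (a b) (1 : ℝ)) = rho ν (s b) := by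
        intro b
        rw [ha]
        funext i j
        unfold om
        rw [Finset.sum_eq_single (a b)]
        · simp [rho]
        · intro c _ hc
          simp [hc]
        · intro hn; exact absurd (Finset.mem_univ _) hn
      simp only [h4] at h3
      refine h3.trans (mul_le_mul_of_nonneg_right ?_ (hq0 _))
      exact Real.exp_le_exp.2 (by exact_mod_cast hk)

end fam

end Pool.Agent.H17.NO
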